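import Pool.Agent.Lib_helper47.Flip.Base

/-!
# Block EPS-1: definitions of the contract (verbatim)
-/

set_option autoImplicit false

namespace Pool.Agent.Flip

open scoped InnerProductSpace ComplexConjugate
open Complex Set Metric Filter Topology Pool.Agent.Deg47

noncomputable section

/-- `X = A_+(w) v`. -/
def Xv (Φ : Sys) (v : V) (w : W) : V := Ap Φ w v

/-- `Y = -i A_-(w) v = -A_+(w)(i v)`. -/
def Yv (Φ : Sys) (v : V) (w : W) : V := -(Ap Φ w (J v))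

/-- The bivector operator `X∧X' - Y∧Y'`. -/
def Bop (X Y X' Y' : V) (f : V) : V :=
  ⟪X', f⟫_ℝ • X - ⟪X, f⟫_ℝ • X' - ⟪Y', f⟫_ℝ • Y + ⟪Y, f⟫_ℝ • Y'

/-- `B_w`. -/
def Bw (Φ : Sys) (v1 v2 : V) (w : W) : V → V :=
  Bop (Xv Φ v1 w) (Yv Φ v1 w) (Xv Φ v2 w) (Yv Φ v2 w)

end

end Pool.Agent.Flip
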