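import Pool.Agent.Lib_helper89.Flip.Split

set_option autoImplicit false

/-!
Block EPS, algebra: the skew operator `X ∧ X' - Y ∧ Y'` and the odd map.
-/

namespace Pool.Agent.Flip

open scoped InnerProductSpace
open Module

noncomputable section

variable {E : Type*} [NormedAddCommGroup E] [InnerProductSpace ℝ E]

/-- The operator `f ↦ ⟪X',f⟫ X - ⟪X,f⟫ X' - ⟪Y',f⟫ Y + ⟪Y,f⟫ Y'`. -/
def bop (X Y X' Y' : E) : E →L[ℝ] E :=
  (innerSL ℝ X').smulRight X - (innerSL ℝ X).smulRight X'
    - (innerSL ℝ Y').smulRight Y + (innerSL ℝ Y).smulRight Y'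

lemma bop_apply (X Y X' Y' f : E) : bop X Y X' Y' f =
    ⟪X', f⟫_ℝ • X - ⟪X, f⟫_ℝ • X' - ⟪Y', f⟫_ℝ • Y + ⟪Y, f⟫_ℝ • Y' := by
  simp [bop]

lemma bop_skew (X Y X' Y' f h : E) :
    ⟪bop X Y X' Y' f, h⟫_ℝ = - ⟪f, bop X Y X' Y' h⟫_ℝ := by
  simp only [bop_apply, inner_add_left, inner_sub_left, inner_add_right, inner_sub_right,
    real_inner_smul_left, real_inner_smul_right]
  rw [real_inner_comm f X', real_inner_comm f X, real_inner_comm f Y', real_inner_comm f Y]
  ring

lemma bop_self (X Y X' Y' f : E) : ⟪bop X Y X' Y' f, f⟫_ℝ = 0 := by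
  have h := bop_skew X Y X' Y' f f
  rw [real_inner_comm (bop X Y X' Y' f) f] at h
  linarith

/-- Key lemma: if `X, Y, X', Y'` are linearly dependent and the three functions
`|BX|^2 - |BY|^2`, `⟪BX, BY⟫`, `⟪BX, Y⟫` vanish, then `B = 0`. -/
theorem bop_eq_zero {X Y X' Y' : E} (hdep : ¬ LinearIndependent ℝ ![X, Y, X', Y'])
    (h1 : ‖bop X Y X' Y' X‖ ^ 2 - ‖bop X Y X' Y' Y‖ ^ 2 = 0)
    (h2 : ⟪bop X Y X' Y' X, bop X Y X' Y' Y⟫_ℝ = 0)
    (h3 : ⟪bop X Y X' Y' X, Y⟫_ℝ = 0) : bop X Y X' Y' = 0 := by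
  set B := bop X Y X' Y' with hB
  have skew : ∀ f h, ⟪B f, h⟫_ℝ = - ⟪f, B h⟫_ℝ := bop_skew X Y X' Y'
  have self : ∀ f, ⟪B f, f⟫_ℝ = 0 := bop_self X Y X' Y'
  set S := Submodule.span ℝ (Set.range ![X, Y, X', Y']) with hS
  have hX : X ∈ S := Submodule.subset_span ⟨0, rfl⟩
  have hY : Y ∈ S := Submodule.subset_span ⟨1, rfl⟩
  have hX' : X' ∈ S := Submodule.subset_span ⟨2, rfl⟩
  have hY' : Y' ∈ S := Submodule.subset_span ⟨3, rfl⟩
  have hBS : ∀ f, B f ∈ S := by
    intro f
    rw [hB, bop_apply]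
    exact S.add_mem (S.sub_mem (S.sub_mem (S.smul_mem _ hX) (S.smul_mem _ hX'))
      (S.smul_mem _ hY)) (S.smul_mem _ hY')
  have hfin : FiniteDimensional ℝ S := FiniteDimensional.span_of_finite ℝ (Set.finite_range _)
  have hrank : finrank ℝ S ≤ 3 := by
    by_contra hcon
    push Not at hcon
    apply hdep
    rw [linearIndependent_iff_card_eq_finrank_span]
    have h4 : finrank ℝ S ≤ 4 := by
      have := finrank_range_le_card (R := ℝ) ![X, Y, X', Y']
      simpa [Set.finrank] using this
    have : finrank ℝ S = 4 := by omega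
    simp only [Fintype.card_fin, Set.finrank]
    exact this.symm
  -- four nonzero pairwise orthogonal vectors cannot live in S
  have key : B X = 0 := by
    by_contra hx
    set x := B X with hxdef
    set y := B Y with hydef
    have hnx : 0 < ‖x‖ ^ 2 := by positivity
    have hny : 0 < ‖y‖ ^ 2 := by linarith
    have hy : y ≠ 0 := by
      intro h; rw [h] at hny; simp at hny
    have hY0 : Y ≠ 0 := by
      intro h; apply hy; rw [hydef, h, map_zero]
    have hnY : 0 < ‖Y‖ ^ 2 := by positivity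
    have hyY : ⟪y, Y⟫_ℝ = 0 := self Y
    set δ := ⟪X, Y⟫_ℝ / ‖Y‖ ^ 2 with hδ
    set r := X - δ • Y with hr
    have hrx : ⟪r, x⟫_ℝ = 0 := by
      rw [hr, inner_sub_left, real_inner_smul_left, real_inner_comm, self X,
        real_inner_comm, h3]; ring
    have hry : ⟪r, y⟫_ℝ = 0 := by
      have e1 : ⟪X, y⟫_ℝ = 0 := by
        have := skew X Y
        rw [h3] at this
        linarith
      rw [hr, inner_sub_left, real_inner_smul_left, e1, real_inner_comm, hyY]; ring
    have hrY : ⟪r, Y⟫_ℝ = 0 := by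
      rw [hr, inner_sub_left, real_inner_smul_left, real_inner_self_eq_norm_sq, hδ]
      field_simp
      ring
    by_cases hr0 : r = 0
    · have hXY : X = δ • Y := by
        have := hr0
        rw [hr, sub_eq_zero] at this
        exact this
      have : x = δ • y := by
        rw [hxdef, hydef, ← map_smul, ← hXY]
      rw [this, real_inner_smul_left, real_inner_self_eq_norm_sq] at h2
      rcases mul_eq_zero.mp h2 with h | h
      · apply hx; rw [this, h, zero_smul]
      · exact hny.ne' h
    · -- four orthogonal vectors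
      have hli : LinearIndependent ℝ ![x, y, Y, r] := by
        apply linearIndependent_of_ne_zero_of_inner_eq_zero
        · intro i
          fin_cases i
          · exact hx
          · exact hy
          · exact hY0
          · exact hr0
        · intro i j hij
          have c1 : ⟪y, x⟫_ℝ = 0 := by rw [real_inner_comm]; exact h2
          have c2 : ⟪Y, x⟫_ℝ = 0 := by rw [real_inner_comm]; exact h3
          have c3 : ⟪Y, y⟫_ℝ = 0 := by rw [real_inner_comm]; exact hyY
          have c4 : ⟪x, r⟫_ℝ = 0 := by rw [real_inner_comm]; exact hrx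
          have c5 : ⟪y, r⟫_ℝ = 0 := by rw [real_inner_comm]; exact hry
          have c6 : ⟪Y, r⟫_ℝ = 0 := by rw [real_inner_comm]; exact hrY
          fin_cases i <;> fin_cases j <;> first | (exact absurd rfl hij) | assumption
      have hmem : ∀ i, ![x, y, Y, r] i ∈ S := by
        intro i
        fin_cases i
        · exact hBS X
        · exact hBS Y
        · exact hY
        · exact S.sub_mem hX (S.smul_mem _ hY)
      have hli' : LinearIndependent ℝ (fun i => (⟨![x, y, Y, r] i, hmem i⟩ : S)) := by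
        apply LinearIndependent.of_comp S.subtype
        exact hli
      have := hli'.fintype_card_le_finrank
      simp at this
      omega
  have keyY : B Y = 0 := by
    rw [key] at h1
    have : ‖B Y‖ ^ 2 = 0 := by simpa using h1
    simpa using this
  have orthX : ∀ f, ⟪X, B f⟫_ℝ = 0 := by
    intro f
    have := skew X f
    rw [key, inner_zero_left] at this
    linarith
  have orthY : ∀ f, ⟪Y, B f⟫_ℝ = 0 := by
    intro f
    have := skew Y f
    rw [keyY, inner_zero_left] at this
    linarith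
  have hBB : ∀ f, B (B f) = 0 := by
    intro f
    have e : B (B f) = ⟪X', B f⟫_ℝ • X - ⟪Y', B f⟫_ℝ • Y := by
      conv_lhs => rw [hB, bop_apply, ← hB]
      rw [orthX, orthY]
      simp
    have : ⟪B (B f), B (B f)⟫_ℝ = 0 := by
      calc ⟪B (B f), B (B f)⟫_ℝ = ⟪⟪X', B f⟫_ℝ • X - ⟪Y', B f⟫_ℝ • Y, B (B f)⟫_ℝ := by rw [← e]
        _ = 0 := by
          rw [inner_sub_left, real_inner_smul_left, real_inner_smul_left, orthX, orthY]
          ring
    exact inner_self_eq_zero.mp this
  ext f
  have : ⟪B f, B f⟫_ℝ = 0 := by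
    rw [skew, hBB, inner_zero_right, neg_zero]
  simpa using inner_self_eq_zero.mp this

end

end Pool.Agent.Flip
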