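import Pool.Agent.Lib_helper97.Flip.EpsDefs
import Pool.Agent.Lib_helper97.Flip.EpsAlg
import Pool.Agent.Lib_helper31.Flip.Cpt
import Pool.Agent.Lib_helper85.Flip.DD2

/-!
# Block EPS-1: the odd nonvanishing map
-/

set_option autoImplicit false

namespace Pool.Agent.Flip

open scoped InnerProductSpace ComplexConjugate
open Complex Set Metric Filter Topology Pool.Agent.Deg47

noncomputable section

lemma Bop_eq_bop (X Y X' Y' : V) : Bop X Y X' Y' = bop X Y X' Y' := by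
  funext f
  rw [bop_apply]
  rfl

/-- The four vectors `X, Y, X', Y'`. -/
def xs (Φ : Sys) (v1 v2 : V) (w : W) : Fin 4 → V :=
  ![Xv Φ v1 w, Yv Φ v1 w, Xv Φ v2 w, Yv Φ v2 w]

/-- Matrix of inner products. -/
def crossM (f x : Fin 4 → V) : Matrix (Fin 4) (Fin 4) ℝ := Matrix.of fun i j => ⟪f i, x j⟫_ℝ

/-- The first component in terms of a frame. -/
def RR (Φ : Sys) (w : W) (k : V) (f x : Fin 4 → V) : ℝ :=
  ((SignType.sign (DD Φ w (fr k f)) : ℤ) : ℝ) *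
    ((crossM f x).det / Real.sqrt (Matrix.gram ℝ f).det)

lemma crossM_mul (M : Matrix (Fin 4) (Fin 4) ℝ) (f f' x : Fin 4 → V)
    (h : ∀ i, f' i = ∑ j, M i j • f j) : crossM f' x = M * crossM f x := by
  ext i j
  rw [Matrix.mul_apply]
  simp only [crossM, Matrix.of_apply, h i, sum_inner, real_inner_smul_left]

lemma gram_mul (M : Matrix (Fin 4) (Fin 4) ℝ) (f f' : Fin 4 → V)
    (h : ∀ i, f' i = ∑ j, M i j • f j) :
    Matrix.gram ℝ f' = M * Matrix.gram ℝ f * M.transpose := by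
  ext i j
  rw [Matrix.mul_apply]
  simp only [Matrix.gram_apply, h i, h j, sum_inner, real_inner_smul_left, Matrix.mul_apply,
    Matrix.transpose_apply, inner_sum, real_inner_smul_right]
  simp only [Finset.sum_mul]
  refine Finset.sum_congr rfl fun a _ => Finset.sum_congr rfl fun b _ => ?_
  ring

lemma gram_det_pos {f : Fin 4 → V} (hf : LinearIndependent ℝ f) :
    0 < (Matrix.gram ℝ f).det := (Matrix.posDef_gram_of_linearIndependent hf).det_pos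

/-- `J` as a linear isometry. -/
def Jis : V ≃ₗᵢ[ℝ] V :=
  { toLinearEquiv := LinearEquiv.ofLinearMap (J : V →ₗ[ℝ] V) (-(J : V →ₗ[ℝ] V))
      (by ext z : 1; simp only [LinearMap.comp_apply, LinearMap.neg_apply, map_neg,
            ContinuousLinearMap.coe_coe, J_J, neg_neg, LinearMap.id_apply])
      (by ext z : 1; simp only [LinearMap.comp_apply, LinearMap.neg_apply,
            ContinuousLinearMap.coe_coe, J_J, neg_neg, LinearMap.id_apply])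
    norm_map' := fun z => norm_J z }

lemma Jis_apply (z : V) : Jis z = J z := rfl

lemma finrank_Fp_of_D1 {Φ : Sys} (hS : Symm Φ) {w : W} (hw : w ∈ D1 Φ) :
    Module.finrank ℝ (Fp (A Φ w)) = 4 := by
  have h := finrank_split_anti (T := A Φ w) Jis (A_sym hS w) (fun x => A_J Φ w x)
  rw [finrank_V] at h
  have h2 : Module.finrank ℝ (Kr (A Φ w)) = 2 := hw.2
  omega

/-- A frame spans the positive space. -/
lemma FrameAt.span_eq {Φ : Sys} (hS : Symm Φ) {w : W} (hw : w ∈ D1 Φ) {k : V} {f : Fin 4 → V}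
    (h : FrameAt Φ w k f) : Submodule.span ℝ (Set.range f) = Fp (A Φ w) := by
  apply Submodule.eq_of_le_of_finrank_eq
  · rw [Submodule.span_le]
    rintro _ ⟨i, rfl⟩
    exact h.mem i
  · rw [finrank_Fp_of_D1 hS hw]
    have := linearIndependent_iff_card_eq_finrank_span.mp h.li
    simpa [Set.finrank] using this.symm

lemma FrameAt.exists_matrix {Φ : Sys} (hS : Symm Φ) {w : W} (hw : w ∈ D1 Φ) {k : V}
    {f : Fin 4 → V} (h : FrameAt Φ w k f) (f' : Fin 4 → V) (h' : ∀ i, f' i ∈ Fp (A Φ w)) :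
    ∃ M : Matrix (Fin 4) (Fin 4) ℝ, ∀ i, f' i = ∑ j, M i j • f j := by
  have : ∀ i, ∃ c : Fin 4 → ℝ, ∑ j, c j • f j = f' i := by
    intro i
    have hi := h' i
    rw [← h.span_eq hS hw] at hi
    exact (Submodule.mem_span_range_iff_exists_fun ℝ).mp hi
  choose M hM using this
  exact ⟨M, fun i => (hM i).symm⟩

lemma RR_indep {Φ : Sys} (hS : Symm Φ) (hZ : ZeroFree Φ) {w : W} (hw : w ∈ D1 Φ)
    {k k' : V} {f f' : Fin 4 → V} (h : FrameAt Φ w k f) (h' : FrameAt Φ w k' f')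
    (x : Fin 4 → V) : RR Φ w k' f' x = RR Φ w k f x := by
  obtain ⟨M, hM⟩ := h.exists_matrix hS hw f' h'.mem
  have hg : (Matrix.gram ℝ f').det = M.det ^ 2 * (Matrix.gram ℝ f).det := by
    rw [gram_mul M f f' hM, Matrix.det_mul, Matrix.det_mul, Matrix.det_transpose]; ring
  have hMdet : M.det ≠ 0 := by
    intro h0
    have := gram_det_pos h'.li
    rw [hg, h0] at this
    norm_num at this
  have hDD := DD_frame_change hS hZ hw h h' M hM
  unfold RR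
  rw [hDD, crossM_mul M f f' x hM, Matrix.det_mul, hg, Real.sqrt_mul (sq_nonneg _),
    Real.sqrt_sq_eq_abs]
  have hpos := Real.sqrt_pos.mpr (gram_det_pos h.li)
  rcases lt_or_gt_of_ne hMdet with hneg | hp
  · rw [sign_neg hneg, abs_of_neg hneg]
    have e1 : SignType.sign (((-1 : SignType) : ℤ) * DD Φ w (fr k f))
        = - SignType.sign (DD Φ w (fr k f)) := by
      simp [Left.sign_neg]
    rw [e1]
    have e2 : (((-SignType.sign (DD Φ w (fr k f)) : SignType) : ℤ) : ℝ)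
        = - (((SignType.sign (DD Φ w (fr k f)) : SignType) : ℤ) : ℝ) := by
      simp
    rw [e2]
    field_simp
  · rw [sign_pos hp, abs_of_pos hp]
    have e1 : SignType.sign (((1 : SignType) : ℤ) * DD Φ w (fr k f))
        = SignType.sign (DD Φ w (fr k f)) := by
      simp
    rw [e1]
    field_simp

open Classical in
/-- The first component of `g`. -/
def rho (Φ : Sys) (v1 v2 : V) (w : W) : ℝ :=
  if h : ∃ kf : V × (Fin 4 → V), FrameAt Φ w kf.1 kf.2 then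
    RR Φ w h.choose.1 h.choose.2 (xs Φ v1 v2 w) else 0

lemma rho_eq {Φ : Sys} (hS : Symm Φ) (hZ : ZeroFree Φ) {v1 v2 : V} {w : W} (hw : w ∈ D1 Φ)
    {k : V} {f : Fin 4 → V} (h : FrameAt Φ w k f) :
    rho Φ v1 v2 w = RR Φ w k f (xs Φ v1 v2 w) := by
  have hex : ∃ kf : V × (Fin 4 → V), FrameAt Φ w kf.1 kf.2 := ⟨(k, f), h⟩
  unfold rho
  rw [dif_pos hex]
  exact RR_indep hS hZ hw h hex.choose_spec _

lemma neg_mem_D1 {Φ : Sys} {w : W} (hw : w ∈ D1 Φ) : -w ∈ D1 Φ := by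
  refine ⟨by rw [norm_neg]; exact hw.1, ?_⟩
  rw [A_neg]
  have h : LinearMap.ker (-A Φ w).toLinearMap = LinearMap.ker (A Φ w).toLinearMap := by
    ext x; simp
  rw [h]
  exact hw.2

lemma Ap_neg {Φ : Sys} (hS : Symm Φ) (w : W) (x : V) : Ap Φ (-w) x = - J (Ap Φ w (J x)) := by
  unfold Ap
  rw [A_neg]
  have h := pos_neg_anti (T := A Φ w) Jis (A_sym hS w) (fun x => A_J Φ w x) (J x)
  rw [Jis_apply, Jis_apply, J_J, map_neg] at h
  rw [← h, neg_neg]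

lemma Xv_neg {Φ : Sys} (hS : Symm Φ) (v : V) (w : W) : Xv Φ v (-w) = J (Yv Φ v w) := by
  unfold Xv Yv
  rw [Ap_neg hS, map_neg]

lemma Yv_neg {Φ : Sys} (hS : Symm Φ) (v : V) (w : W) : Yv Φ v (-w) = - J (Xv Φ v w) := by
  unfold Xv Yv
  rw [Ap_neg hS, J_J, map_neg, map_neg, neg_neg]

lemma inner_J_of_J (a f : V) : ⟪J a, f⟫_ℝ = ⟪a, -J f⟫_ℝ := by
  rw [inner_neg_right, inner_J_left]

/-- `B` at `-w`. -/
lemma Bw_neg {Φ : Sys} (hS : Symm Φ) (v1 v2 : V) (w : W) (f : V) :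
    Bw Φ v1 v2 (-w) f = J (Bw Φ v1 v2 w (J f)) := by
  unfold Bw Bop
  rw [Xv_neg hS, Yv_neg hS, Xv_neg hS, Yv_neg hS]
  simp only [map_add, map_sub, map_smul, inner_neg_left, inner_J_left, neg_smul, smul_neg,
    neg_neg]
  abel

/-- The matrix changing `(X, Y, X', Y')` to `(Y, -X, Y', -X')`. -/
def Pm : Matrix (Fin 4) (Fin 4) ℝ := !![0, -1, 0, 0; 1, 0, 0, 0; 0, 0, 0, -1; 0, 0, 1, 0]

lemma det_Pm : Pm.det = 1 := by
  simp [Pm, Matrix.det_succ_row_zero, Fin.sum_univ_succ, Fin.succAbove]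

lemma crossM_neg {Φ : Sys} (hS : Symm Φ) (v1 v2 : V) (w : W) (f : Fin 4 → V) :
    crossM (fun j => J (f j)) (xs Φ v1 v2 (-w)) = crossM f (xs Φ v1 v2 w) * Pm := by
  ext i j
  rw [Matrix.mul_apply]
  fin_cases j <;>
    simp [crossM, xs, Pm, Fin.sum_univ_succ, Xv_neg hS, Yv_neg hS, inner_J, -J_apply]

lemma gram_J (f : Fin 4 → V) : Matrix.gram ℝ (fun j => J (f j)) = Matrix.gram ℝ f := by
  ext i j
  simp only [Matrix.gram_apply, inner_J]

lemma rho_neg {Φ : Sys} (hS : Symm Φ) (hZ : ZeroFree Φ) (v1 v2 : V) {w : W} (hw : w ∈ D1 Φ) :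
    rho Φ v1 v2 (-w) = - rho Φ v1 v2 w := by
  obtain ⟨k, f, h⟩ := exists_frameAt hS hw
  obtain ⟨h', hD⟩ := DD_frame_neg hS hZ hw h
  rw [rho_eq hS hZ hw h, rho_eq hS hZ (neg_mem_D1 hw) h']
  unfold RR
  rw [hD, crossM_neg hS, Matrix.det_mul, det_Pm, mul_one, gram_J]
  simp [Left.sign_neg]

/-- If the first component vanishes the four vectors are dependent. -/
lemma dep_of_rho {Φ : Sys} (hS : Symm Φ) (hZ : ZeroFree Φ) (v1 v2 : V) {w : W}
    (hw : w ∈ AA Φ) (h0 : rho Φ v1 v2 w = 0) : ¬ LinearIndependent ℝ (xs Φ v1 v2 w) := by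
  intro hli
  obtain ⟨k, f, h⟩ := exists_frameAt hS hw.1
  rw [rho_eq hS hZ hw.1 h] at h0
  unfold RR at h0
  have hD : DD Φ w (fr k f) ≠ 0 := by
    intro h1
    apply hw.2
    rw [← abs_DD_frame hS hZ hw.1 h, h1, abs_zero]
  have hs : ((SignType.sign (DD Φ w (fr k f)) : ℤ) : ℝ) ≠ 0 := by
    rcases lt_or_gt_of_ne hD with h1 | h1
    · rw [sign_neg h1]; norm_num
    · rw [sign_pos h1]; norm_num
  have hpos := Real.sqrt_pos.mpr (gram_det_pos h.li)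
  have hdet : (crossM f (xs Φ v1 v2 w)).det = 0 := by
    rcases mul_eq_zero.mp h0 with h1 | h1
    · exact absurd h1 hs
    · rcases div_eq_zero_iff.mp h1 with h2 | h2
      · exact h2
      · exact absurd h2 hpos.ne'
  obtain ⟨y, hy0, hy⟩ := Matrix.exists_mulVec_eq_zero_iff.mpr hdet
  set z : V := ∑ j, y j • xs Φ v1 v2 w j with hz
  have hxmem : ∀ j, xs Φ v1 v2 w j ∈ Fp (A Φ w) := by
    intro j
    fin_cases j
    · exact pos_mem_Fp _ _
    · exact (Fp (A Φ w)).neg_mem (pos_mem_Fp _ _)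
    · exact pos_mem_Fp _ _
    · exact (Fp (A Φ w)).neg_mem (pos_mem_Fp _ _)
  have hzmem : z ∈ Fp (A Φ w) := Submodule.sum_mem _ fun j _ => Submodule.smul_mem _ _ (hxmem j)
  have hfz : ∀ i, ⟪f i, z⟫_ℝ = 0 := by
    intro i
    have := congrFun hy i
    simp only [Matrix.mulVec, dotProduct, crossM, Matrix.of_apply, Pi.zero_apply] at this
    rw [hz, inner_sum, ← this]
    refine Finset.sum_congr rfl fun j _ => ?_
    rw [real_inner_smul_right, mul_comm]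
  have hz0 : z = 0 := by
    have hall : ∀ u ∈ Submodule.span ℝ (Set.range f), ⟪u, z⟫_ℝ = 0 := by
      intro u hu
      induction hu using Submodule.span_induction with
      | mem u hu => obtain ⟨i, rfl⟩ := hu; exact hfz i
      | zero => exact inner_zero_left _
      | add a b _ _ ha hb => rw [inner_add_left, ha, hb, add_zero]
      | smul c a _ ha => rw [real_inner_smul_left, ha, mul_zero]
    rw [h.span_eq hS hw.1] at hall
    exact inner_self_eq_zero.mp (hall z hzmem)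
  apply hy0
  funext j
  exact (Fintype.linearIndependent_iff.mp hli) y hz0 j

/-- The map `g`. -/
def gmap (Φ : Sys) (v1 v2 : V) (w : W) : Fin 4 → ℝ :=
  ![rho Φ v1 v2 w,
    ‖Bw Φ v1 v2 w (Xv Φ v1 w)‖ ^ 2 - ‖Bw Φ v1 v2 w (Yv Φ v1 w)‖ ^ 2,
    ⟪Bw Φ v1 v2 w (Xv Φ v1 w), Bw Φ v1 v2 w (Yv Φ v1 w)⟫_ℝ,
    ⟪Bw Φ v1 v2 w (Xv Φ v1 w), Yv Φ v1 w⟫_ℝ]

lemma Bw_eq (Φ : Sys) (v1 v2 : V) (w : W) : Bw Φ v1 v2 w =
    bop (Xv Φ v1 w) (Yv Φ v1 w) (Xv Φ v2 w) (Yv Φ v2 w) := Bop_eq_bop _ _ _ _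

lemma gmap_neg {Φ : Sys} (hS : Symm Φ) (hZ : ZeroFree Φ) (v1 v2 : V) {w : W} (hw : w ∈ D1 Φ) :
    gmap Φ v1 v2 (-w) = - gmap Φ v1 v2 w := by
  have e1 : Bw Φ v1 v2 (-w) (Xv Φ v1 (-w)) = - J (Bw Φ v1 v2 w (Yv Φ v1 w)) := by
    rw [Bw_neg hS, Xv_neg hS, J_J, Bw_eq, map_neg, map_neg]
  have e2 : Bw Φ v1 v2 (-w) (Yv Φ v1 (-w)) = J (Bw Φ v1 v2 w (Xv Φ v1 w)) := by
    rw [Bw_neg hS, Yv_neg hS, map_neg, J_J, neg_neg]
  funext j
  fin_cases j
  · exact rho_neg hS hZ v1 v2 hw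
  · change ‖Bw Φ v1 v2 (-w) (Xv Φ v1 (-w))‖ ^ 2 - ‖Bw Φ v1 v2 (-w) (Yv Φ v1 (-w))‖ ^ 2
      = -(‖Bw Φ v1 v2 w (Xv Φ v1 w)‖ ^ 2 - ‖Bw Φ v1 v2 w (Yv Φ v1 w)‖ ^ 2)
    rw [e1, e2, norm_neg, norm_J, norm_J]; ring
  · change ⟪Bw Φ v1 v2 (-w) (Xv Φ v1 (-w)), Bw Φ v1 v2 (-w) (Yv Φ v1 (-w))⟫_ℝ
      = -⟪Bw Φ v1 v2 w (Xv Φ v1 w), Bw Φ v1 v2 w (Yv Φ v1 w)⟫_ℝ
    rw [e1, e2, inner_neg_left, inner_J, real_inner_comm]
  · change ⟪Bw Φ v1 v2 (-w) (Xv Φ v1 (-w)), Yv Φ v1 (-w)⟫_ℝ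
      = -⟪Bw Φ v1 v2 w (Xv Φ v1 w), Yv Φ v1 w⟫_ℝ
    rw [e1, Yv_neg hS, inner_neg_neg, inner_J, Bw_eq, bop_skew, real_inner_comm]

lemma gmap_ne_zero {Φ : Sys} (hS : Symm Φ) (hZ : ZeroFree Φ) {v1 v2 : V} {w : W}
    (hw : w ∈ AA Φ) (hB : ∃ f, Bw Φ v1 v2 w f ≠ 0) : gmap Φ v1 v2 w ≠ 0 := by
  intro h0
  have h1 : rho Φ v1 v2 w = 0 := congrFun h0 0
  have h2 : ‖Bw Φ v1 v2 w (Xv Φ v1 w)‖ ^ 2 - ‖Bw Φ v1 v2 w (Yv Φ v1 w)‖ ^ 2 = 0 := congrFun h0 1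
  have h3 : ⟪Bw Φ v1 v2 w (Xv Φ v1 w), Bw Φ v1 v2 w (Yv Φ v1 w)⟫_ℝ = 0 := congrFun h0 2
  have h4 : ⟪Bw Φ v1 v2 w (Xv Φ v1 w), Yv Φ v1 w⟫_ℝ = 0 := congrFun h0 3
  obtain ⟨f, hf⟩ := hB
  apply hf
  rw [Bw_eq] at h2 h3 h4 ⊢
  rw [bop_eq_zero (dep_of_rho hS hZ v1 v2 hw h1) h2 h3 h4]
  rfl

/-! ### Local Lipschitz property -/

lemma contDiffAt_det {F : Type*} [NormedAddCommGroup F] [NormedSpace ℝ F]
    {M : F → Matrix (Fin 4) (Fin 4) ℝ} {p : F}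
    (h : ∀ i j, ContDiffAt ℝ 1 (fun y => M y i j) p) :
    ContDiffAt ℝ 1 (fun y => (M y).det) p := by
  simp_rw [Matrix.det_apply]
  refine ContDiffAt.sum fun σ _ => ?_
  refine ContDiffAt.const_smul _ ?_
  exact contDiffAt_prod fun i _ => h _ _

/-- The space of pairs of operators. -/
abbrev LL := (V →L[ℝ] V) × (V →L[ℝ] V)

lemma contDiffAt_fst_apply (x : V) (p : LL) : ContDiffAt ℝ 1 (fun y : LL => y.1 x) p :=
  (contDiff_fst.contDiffAt).clm_apply contDiffAt_const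

lemma contDiffAt_snd_apply (x : V) (p : LL) : ContDiffAt ℝ 1 (fun y : LL => y.2 x) p :=
  (contDiff_snd.contDiffAt).clm_apply contDiffAt_const

/-- the four vectors in terms of the operator `A_+`. -/
def xP (v1 v2 : V) (P : V →L[ℝ] V) : Fin 4 → V := ![P v1, -(P (J v1)), P v2, -(P (J v2))]

lemma xs_eq_xP (Φ : Sys) (v1 v2 : V) (w : W) : xs Φ v1 v2 w = xP v1 v2 (Ap Φ w) := rfl

lemma contDiffAt_xP (v1 v2 : V) (p : LL) (j : Fin 4) :
    ContDiffAt ℝ 1 (fun y : LL => xP v1 v2 y.1 j) p := by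
  fin_cases j
  · exact contDiffAt_fst_apply v1 p
  · exact (contDiffAt_fst_apply (J v1) p).neg
  · exact contDiffAt_fst_apply v2 p
  · exact (contDiffAt_fst_apply (J v2) p).neg

/-- `B` in terms of the operator `A_+`. -/
def BP (v1 v2 : V) (P : V →L[ℝ] V) (f : V) : V :=
  Bop (xP v1 v2 P 0) (xP v1 v2 P 1) (xP v1 v2 P 2) (xP v1 v2 P 3) f

lemma contDiffAt_BP (v1 v2 : V) (p : LL) {f : LL → V} (hf : ContDiffAt ℝ 1 f p) :
    ContDiffAt ℝ 1 (fun y : LL => BP v1 v2 y.1 (f y)) p := by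
  unfold BP Bop
  have h := contDiffAt_xP v1 v2 p
  exact ((((((h 2).inner ℝ hf).smul (h 0)).sub (((h 0).inner ℝ hf).smul (h 2)))).sub
    (((h 3).inner ℝ hf).smul (h 1))).add (((h 1).inner ℝ hf).smul (h 3))

/-- The local smooth formula for `g`. -/
def Gloc (v1 v2 : V) (s0 : ℝ) (f0 : Fin 4 → V) (y : LL) : Fin 4 → ℝ :=
  ![s0 * ((crossM (fun i => y.2 (f0 i)) (xP v1 v2 y.1)).det /
      Real.sqrt (Matrix.gram ℝ (fun i => y.2 (f0 i))).det),
    ‖BP v1 v2 y.1 (xP v1 v2 y.1 0)‖ ^ 2 - ‖BP v1 v2 y.1 (xP v1 v2 y.1 1)‖ ^ 2,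
    ⟪BP v1 v2 y.1 (xP v1 v2 y.1 0), BP v1 v2 y.1 (xP v1 v2 y.1 1)⟫_ℝ,
    ⟪BP v1 v2 y.1 (xP v1 v2 y.1 0), xP v1 v2 y.1 1⟫_ℝ]

lemma contDiffAt_Gloc (v1 v2 : V) (s0 : ℝ) (f0 : Fin 4 → V) (p : LL)
    (hli : LinearIndependent ℝ (fun i => p.2 (f0 i))) :
    ContDiffAt ℝ 1 (Gloc v1 v2 s0 f0) p := by
  have hx := contDiffAt_xP v1 v2 p
  have hb0 := contDiffAt_BP v1 v2 p (hx 0)
  have hb1 := contDiffAt_BP v1 v2 p (hx 1)
  have hdet : ContDiffAt ℝ 1 (fun y : LL =>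
      (crossM (fun i => y.2 (f0 i)) (xP v1 v2 y.1)).det) p := by
    apply contDiffAt_det
    intro i j
    exact (contDiffAt_snd_apply (f0 i) p).inner ℝ (hx j)
  have hgr : ContDiffAt ℝ 1 (fun y : LL =>
      (Matrix.gram ℝ (fun i => y.2 (f0 i))).det) p := by
    apply contDiffAt_det
    intro i j
    exact (contDiffAt_snd_apply (f0 i) p).inner ℝ (contDiffAt_snd_apply (f0 j) p)
  have hpos := gram_det_pos hli
  rw [contDiffAt_pi]
  intro i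
  fin_cases i
  · exact contDiffAt_const.mul (hdet.div (hgr.sqrt hpos.ne') (Real.sqrt_pos.mpr hpos).ne')
  · exact (hb0.norm_sq ℝ).sub (hb1.norm_sq ℝ)
  · exact hb0.inner ℝ hb1
  · exact hb0.inner ℝ (hx 1)

lemma exists_norm_A_le (Φ : Sys) : ∃ C : NNReal, ∀ w w' : W, ‖A Φ w - A Φ w'‖ ≤ C * ‖w - w'‖ := by
  refine ⟨‖LinearMap.toContinuousLinearMap (AL Φ)‖₊, fun w w' => ?_⟩
  have := (LinearMap.toContinuousLinearMap (AL Φ)).le_opNorm (w - w')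
  rw [map_sub] at this
  exact this

lemma exists_lipschitz_pair {Φ : Sys} (hS : Symm Φ) {δ : ℝ} (hδ : 0 < δ) :
    ∃ K : NNReal, LipschitzWith K (fun w : W => ((Ap Φ w, prj δ (A Φ w)) : LL)) := by
  obtain ⟨C, hC⟩ := exists_norm_A_le Φ
  have h1 : LipschitzWith (Real.toNNReal (Real.sqrt 10) * C) (Ap Φ) := by
    apply LipschitzWith.of_dist_le_mul
    intro w w'
    rw [dist_eq_norm, dist_eq_norm, NNReal.coe_mul, Real.coe_toNNReal _ (Real.sqrt_nonneg _)]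
    calc ‖Ap Φ w - Ap Φ w'‖ ≤ Real.sqrt 10 * ‖A Φ w - A Φ w'‖ := Ap_sub_le hS w w'
      _ ≤ Real.sqrt 10 * (C * ‖w - w'‖) := by gcongr; exact hC w w'
      _ = _ := by ring
  have h2 : LipschitzWith (Real.toNNReal (2 * δ⁻¹ * Real.sqrt 10) * C)
      (fun w : W => prj δ (A Φ w)) := by
    apply LipschitzWith.of_dist_le_mul
    intro w w'
    rw [dist_eq_norm, dist_eq_norm, NNReal.coe_mul, Real.coe_toNNReal _ (by positivity)]
    have h3 := prj_lip (A_sym hS w) (A_sym hS w') hδ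
    rw [finrank_V] at h3
    calc ‖prj δ (A Φ w) - prj δ (A Φ w')‖ ≤ 2 * δ⁻¹ * Real.sqrt 10 * ‖A Φ w - A Φ w'‖ := by
          exact_mod_cast h3
      _ ≤ 2 * δ⁻¹ * Real.sqrt 10 * (C * ‖w - w'‖) := by gcongr; exact hC w w'
      _ = _ := by ring
  exact ⟨_, h1.prodMk h2⟩

lemma Kr_eq_D1 {Φ : Sys} {w : W} (hw : w ∈ D1 Φ) : Module.finrank ℝ (Kr (A Φ w)) = 2 := hw.2

/-- Local Lipschitz property of `g`. -/
lemma gmap_lip {Φ : Sys} (hS : Symm Φ) (hZ : ZeroFree Φ) (v1 v2 : V) {w0 : W} (hw0 : w0 ∈ AA Φ) :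
    ∃ K : NNReal, ∃ t ∈ 𝓝[AA Φ] w0, LipschitzOnWith K (gmap Φ v1 v2) t := by
  obtain ⟨k0, f0, hfr⟩ := exists_frameAt hS hw0.1
  obtain ⟨δ, hδ, hgap⟩ := exists_gap_near (A_sym hS w0)
  obtain ⟨Kp, hKp⟩ := exists_lipschitz_pair hS hδ
  set s0 : ℝ := ((SignType.sign (DD Φ w0 (fr k0 f0)) : ℤ) : ℝ) with hs0
  -- at w0
  have hg0 := hgap (A Φ w0) (A_sym hS w0) (by simpa using hδ)
  have hpr0 : prj δ (A Φ w0) = Pr (A Φ w0) := prj_eq (A_sym hS w0) hδ (hg0.2 le_rfl).1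
  have hprn0 : prj δ (-A Φ w0) = Pr (-A Φ w0) := prj_eq (A_sym hS w0).neg hδ (hg0.2 le_rfl).2.1
  have hf0 : ∀ i, prj δ (A Φ w0) (f0 i) = f0 i := by
    intro i; rw [hpr0]; exact Pr_of_mem (hfr.mem i)
  -- continuity of the projections
  have hcp : Continuous (fun w : W => prj δ (A Φ w)) := by
    have := hKp.continuous
    exact continuous_snd.comp this
  have hcn : Continuous (fun w : W => prj δ (-A Φ w)) := by
    have h := hcp.comp continuous_neg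
    refine h.congr fun w => ?_
    change prj δ (A Φ (-w)) = _
    rw [A_neg]
  set kk : W → V := fun w => k0 - prj δ (A Φ w) k0 - prj δ (-A Φ w) k0 with hkk
  set fl : W → Fin 4 → V := fun w i => prj δ (A Φ w) (f0 i) with hfl
  have hkkc : Continuous kk :=
    (continuous_const.sub (hcp.clm_apply continuous_const)).sub (hcn.clm_apply continuous_const)
  have hflc : Continuous fl := continuous_pi fun i => hcp.clm_apply continuous_const
  have hkk0 : kk w0 = k0 := by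
    have h1 : Pr (A Φ w0) k0 = 0 := Pr_eq_zero fun y hy => inner_Kr_Fp (A_sym hS w0) hfr.k_ker hy
    have h2 : Pr (-A Φ w0) k0 = 0 := Pr_eq_zero fun y hy => inner_Kr_Fn (A_sym hS w0) hfr.k_ker hy
    rw [hkk]
    simp only
    rw [hpr0, hprn0, h1, h2, sub_zero, sub_zero]
  have hfl0 : fl w0 = f0 := funext hf0
  -- eventually statements
  have ev1 : ∀ᶠ w in 𝓝 w0, ‖A Φ w - A Φ w0‖ < δ := by
    have : Tendsto (fun w => ‖A Φ w - A Φ w0‖) (𝓝 w0) (𝓝 0) := by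
      have h := ((continuous_A Φ).sub continuous_const).norm.tendsto w0 (f := fun w => ‖A Φ w - A Φ w0‖)
      simpa using h
    exact this.eventually_lt_const hδ
  have ev2 : ∀ᶠ w in 𝓝 w0, kk w ≠ 0 := by
    apply hkkc.continuousAt.eventually_ne
    rw [hkk0]; exact hfr.k_ne
  have ev3 : ∀ᶠ w in 𝓝 w0, LinearIndependent ℝ (fl w) := by
    have h1 : ∀ᶠ g in 𝓝 (fl w0), LinearIndependent ℝ g := by
      rw [hfl0]; exact hfr.li.eventually
    exact hflc.continuousAt.eventually h1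
  have ev4 : ∀ᶠ w in 𝓝 w0, DD Φ w (fr (kk w) (fl w)) = DD Φ w0 (fr k0 f0) := by
    have hc : ContinuousAt (fun w : W => (w, fr (kk w) (fl w))) w0 := by
      refine continuousAt_id.prodMk ?_
      refine continuousAt_pi.mpr fun i => ?_
      have hi : ∀ j, ContinuousAt (fun w => J1 (fl w j)) w0 := fun j =>
        (J1.continuous.comp ((continuous_apply j).comp hflc)).continuousAt
      fin_cases i
      · exact hkkc.continuousAt
      · exact (J.continuous.comp hkkc).continuousAt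
      · exact hi 0
      · exact hi 1
      · exact hi 2
      · exact hi 3
    have h1 := DD_locally_const (hfr.nd hS hZ hw0.1)
    have h2 : ∀ᶠ p : W × (Fin 6 → V) in 𝓝 ((fun w : W => (w, fr (kk w) (fl w))) w0),
        ND Φ p.1 p.2 ∧ DD Φ p.1 p.2 = DD Φ w0 (fr k0 f0) := by
      change ∀ᶠ p : W × (Fin 6 → V) in 𝓝 (w0, fr (kk w0) (fl w0)), _
      rw [hkk0, hfl0]; exact h1
    exact (hc.eventually h2).mono fun w hw => hw.2
  -- the smooth local formula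
  have hG : ContDiffAt ℝ 1 (Gloc v1 v2 s0 f0) (Ap Φ w0, prj δ (A Φ w0)) := by
    apply contDiffAt_Gloc
    have : (fun i => prj δ (A Φ w0) (f0 i)) = f0 := funext hf0
    simp only
    rw [this]; exact hfr.li
  obtain ⟨K, tG, htG, hLG⟩ := hG.exists_lipschitzOnWith
  have ev5 : ∀ᶠ w in 𝓝 w0, ((Ap Φ w, prj δ (A Φ w)) : LL) ∈ tG :=
    hKp.continuous.continuousAt.eventually htG
  have evall := (ev1.and (ev2.and (ev3.and (ev4.and ev5))))
  refine ⟨K * Kp, {w | w ∈ AA Φ ∧ (‖A Φ w - A Φ w0‖ < δ ∧ kk w ≠ 0 ∧ LinearIndependent ℝ (fl w) ∧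
    DD Φ w (fr (kk w) (fl w)) = DD Φ w0 (fr k0 f0) ∧ ((Ap Φ w, prj δ (A Φ w)) : LL) ∈ tG)}, ?_, ?_⟩
  · rw [mem_nhdsWithin_iff_eventually]
    filter_upwards [evall] with w hw hwA
    exact ⟨hwA, hw⟩
  · have hcomp := hLG.comp (hKp.lipschitzOnWith (s := {w | w ∈ AA Φ ∧ (‖A Φ w - A Φ w0‖ < δ ∧
      kk w ≠ 0 ∧ LinearIndependent ℝ (fl w) ∧
      DD Φ w (fr (kk w) (fl w)) = DD Φ w0 (fr k0 f0) ∧ ((Ap Φ w, prj δ (A Φ w)) : LL) ∈ tG)}))
      (fun w hw => hw.2.2.2.2.2)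
    suffices heq : ∀ w, (w ∈ AA Φ ∧ (‖A Φ w - A Φ w0‖ < δ ∧ kk w ≠ 0 ∧
        LinearIndependent ℝ (fl w) ∧ DD Φ w (fr (kk w) (fl w)) = DD Φ w0 (fr k0 f0) ∧
        ((Ap Φ w, prj δ (A Φ w)) : LL) ∈ tG)) →
        Gloc v1 v2 s0 f0 (Ap Φ w, prj δ (A Φ w)) = gmap Φ v1 v2 w by
      intro x hx y hy
      have := hcomp hx hy
      simp only [Function.comp_apply] at this
      rw [heq x hx, heq y hy] at this
      exact this
    intro w hw
    obtain ⟨hwA, h1, h2, h3, h4, h5⟩ := hw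
    have hg := hgap (A Φ w) (A_sym hS w) h1
    have hK : Module.finrank ℝ (Kr (A Φ w0)) ≤ Module.finrank ℝ (Kr (A Φ w)) := by
      rw [Kr_eq_D1 hw0.1, Kr_eq_D1 hwA.1]
    have hpr : prj δ (A Φ w) = Pr (A Φ w) := prj_eq (A_sym hS w) hδ (hg.2 hK).1
    have hprn : prj δ (-A Φ w) = Pr (-A Φ w) := prj_eq (A_sym hS w).neg hδ (hg.2 hK).2.1
    have hframe : FrameAt Φ w (kk w) (fl w) := by
      refine ⟨h2, ?_, h3, ?_⟩
      · have := ker_part_mem (A_sym hS w) k0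
        rw [← hpr, ← hprn] at this
        exact this
      · intro j
        rw [hfl]
        simp only
        rw [hpr]; exact Pr_mem _ _
    funext j
    fin_cases j
    · change s0 * _ = rho Φ v1 v2 w
      rw [rho_eq hS hZ hwA.1 hframe]
      unfold RR
      rw [h4]
      rfl
    · rfl
    · rfl
    · rfl

/-- existence of the odd nonvanishing map (locally Lipschitz). -/
theorem exists_g {Φ : Sys} (hS : Symm Φ) (hZ : ZeroFree Φ) {v1 v2 : V}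
    (hB : ∀ w ∈ D1 Φ, ∃ f, Bw Φ v1 v2 w f ≠ 0) :
    ∃ g : W → (Fin 4 → ℝ), (∀ w ∈ AA Φ, g (-w) = - g w) ∧ (∀ w ∈ AA Φ, g w ≠ 0) ∧
      (∀ w ∈ AA Φ, ∃ K : NNReal, ∃ t ∈ 𝓝[AA Φ] w, LipschitzOnWith K g t) :=
  ⟨gmap Φ v1 v2, fun _ hw => gmap_neg hS hZ v1 v2 hw.1,
    fun w hw => gmap_ne_zero hS hZ hw (hB w hw.1), fun _ hw => gmap_lip hS hZ v1 v2 hw⟩

end

end Pool.Agent.Flip
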