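import Pool.Agent.Lib_helper97.Flip.Grp
import Pool.Agent.Lib_helper85.EP
import Pool.Agent.Lib_helper31.Flip.Cpt
import Pool.Agent.Lib_helper85.Flip.DD2

/-!
# Block EPS-2: the equivariant count
-/

set_option autoImplicit false

namespace Pool.Agent.Flip

open scoped InnerProductSpace ComplexConjugate
open Complex Set Metric Filter Topology Pool.Agent.Deg47

noncomputable section

/-- The cutoff. -/
def cutS (p : EE) : ℝ := max 0 (min 1 (2 - (|p.2.1| + ‖p.2.2‖ ^ 2)))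

lemma continuous_cutS : Continuous cutS := by
  unfold cutS
  fun_prop

lemma cutS_mem (p : EE) : cutS p ∈ Icc (0 : ℝ) 1 :=
  ⟨le_max_left _ _, max_le zero_le_one (min_le_left _ _)⟩

lemma cutS_eq_zero {p : EE} (h : 2 ≤ |p.2.1| + ‖p.2.2‖ ^ 2) : cutS p = 0 := by
  unfold cutS
  apply max_eq_left
  exact (min_le_right _ _).trans (by linarith)

lemma cutS_eq_one {p : EE} (h : |p.2.1| + ‖p.2.2‖ ^ 2 ≤ 1) : cutS p = 1 := by
  unfold cutS
  rw [min_eq_left (by linarith)]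
  exact max_eq_right zero_le_one

/-- The `W`-component of the interpolating map. -/
def HW (Φ : Sys) (G : W → (Fin 4 → ℝ)) (κ : W × V → ℂ) (L : (Fin 4 → ℝ) →L[ℝ] W)
    (L' : ℂ →L[ℝ] W) (p : EE) : W :=
  (1 - cutS p) • (q Φ p.2.2 - p.2.1 • p.1)
      + cutS p • (L (p.2.1 • G p.1) + L' (κ (p.1, p.2.2)))

/-- The interpolating map. -/
def HH (Φ : Sys) (G : W → (Fin 4 → ℝ)) (κ : W × V → ℂ) (L : (Fin 4 → ℝ) →L[ℝ] W)
    (L' : ℂ →L[ℝ] W) (u : W) (lam : ℝ) (p : EE) : EE :=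
  (HW Φ G κ L L' p - lam • u, ‖p.1‖ ^ 2 - 1, A Φ p.1 p.2.2)

lemma norm_one_of_sq' {w : W} (h : ‖w‖ ^ 2 - 1 = 0) : ‖w‖ = 1 := by
  have h1 : ‖w‖ ^ 2 = 1 ^ 2 := by linarith
  exact (pow_left_inj₀ (norm_nonneg _) zero_le_one two_ne_zero).1 h1

lemma HH_zero_iff {Φ : Sys} {G : W → (Fin 4 → ℝ)} {κ : W × V → ℂ} {L : (Fin 4 → ℝ) →L[ℝ] W}
    {L' : ℂ →L[ℝ] W} {u : W} {lam : ℝ} {p : EE} (h : HH Φ G κ L L' u lam p = 0) :
    HW Φ G κ L L' p = lam • u ∧ ‖p.1‖ = 1 ∧ A Φ p.1 p.2.2 = 0 := by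
  have e1 : HW Φ G κ L L' p - lam • u = 0 := congrArg Prod.fst h
  have e2 : ‖p.1‖ ^ 2 - 1 = 0 := congrArg (fun x : EE => x.2.1) h
  have e3 : A Φ p.1 p.2.2 = 0 := congrArg (fun x : EE => x.2.2) h
  exact ⟨sub_eq_zero.mp e1, norm_one_of_sq' e2, e3⟩

lemma sys0_zero {Φ : Sys} {u : W} {p : EE} (h : sys0 Φ u p = 0) :
    q Φ p.2.2 - p.2.1 • p.1 = u ∧ ‖p.1‖ = 1 ∧ A Φ p.1 p.2.2 = 0 := by
  have e1 : q Φ p.2.2 - p.2.1 • p.1 - u = 0 := congrArg Prod.fst h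
  have e2 : ‖p.1‖ ^ 2 - 1 = 0 := congrArg (fun x : EE => x.2.1) h
  have e3 : A Φ p.1 p.2.2 = 0 := congrArg (fun x : EE => x.2.2) h
  exact ⟨sub_eq_zero.mp e1, norm_one_of_sq' e2, e3⟩

lemma continuous_HW (Φ : Sys) {G : W → (Fin 4 → ℝ)} (hG : Continuous G) {κ : W × V → ℂ}
    (hκ : Continuous κ) (L : (Fin 4 → ℝ) →L[ℝ] W) (L' : ℂ →L[ℝ] W) :
    Continuous (HW Φ G κ L L') := by
  have cw : Continuous fun t : EE => t.1 := by fun_prop
  have cc : Continuous fun t : EE => t.2.1 := by fun_prop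
  have cz : Continuous fun t : EE => t.2.2 := by fun_prop
  have c1 : Continuous fun t : EE => q Φ t.2.2 := (continuous_q Φ).comp cz
  have c2 : Continuous fun t : EE => L (t.2.1 • G t.1) :=
    L.continuous.comp (cc.smul (hG.comp cw))
  have c3 : Continuous fun t : EE => L' (κ (t.1, t.2.2)) :=
    L'.continuous.comp (hκ.comp (cw.prodMk cz))
  exact ((continuous_const.sub continuous_cutS).smul (c1.sub (cc.smul cw))).add
      (continuous_cutS.smul (c2.add c3))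

lemma continuous_HH (Φ : Sys) {G : W → (Fin 4 → ℝ)} (hG : Continuous G) {κ : W × V → ℂ}
    (hκ : Continuous κ) (L : (Fin 4 → ℝ) →L[ℝ] W) (L' : ℂ →L[ℝ] W) (u : W) :
    Continuous fun t : ℝ × EE => HH Φ G κ L L' u t.1 t.2 := by
  have cw : Continuous fun t : ℝ × EE => t.2.1 := by fun_prop
  have cz : Continuous fun t : ℝ × EE => t.2.2.2 := by fun_prop
  have c4 : Continuous fun t : ℝ × EE => A Φ t.2.1 t.2.2.2 :=
    ((continuous_A Φ).comp cw).clm_apply cz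
  have c5 : Continuous fun t : ℝ × EE => HW Φ G κ L L' t.2 :=
    (continuous_HW Φ hG hκ L L').comp continuous_snd
  have c6 : Continuous fun t : ℝ × EE => t.1 • u := continuous_fst.smul continuous_const
  exact (c5.sub c6).prodMk ((((cw.norm).pow 2).sub continuous_const).prodMk c4)

lemma continuous_HH_lam (Φ : Sys) {G : W → (Fin 4 → ℝ)} (hG : Continuous G) {κ : W × V → ℂ}
    (hκ : Continuous κ) (L : (Fin 4 → ℝ) →L[ℝ] W) (L' : ℂ →L[ℝ] W) (u : W) (lam : ℝ) :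
    Continuous (HH Φ G κ L L' u lam) := by
  have cw : Continuous fun t : EE => t.1 := by fun_prop
  have cz : Continuous fun t : EE => t.2.2 := by fun_prop
  have c4 : Continuous fun t : EE => A Φ t.1 t.2.2 :=
    ((continuous_A Φ).comp cw).clm_apply cz
  have c5 : Continuous (HW Φ G κ L L') := continuous_HW Φ hG hκ L L'
  exact (c5.sub continuous_const).prodMk ((((cw.norm).pow 2).sub continuous_const).prodMk c4)

lemma continuous_sys0 (Φ : Sys) (u : W) : Continuous (sys0 Φ u) := by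
  have cw : Continuous fun t : EE => t.1 := by fun_prop
  have cc : Continuous fun t : EE => t.2.1 := by fun_prop
  have cz : Continuous fun t : EE => t.2.2 := by fun_prop
  have c1 : Continuous fun t : EE => q Φ t.2.2 := (continuous_q Φ).comp cz
  have c4 : Continuous fun t : EE => A Φ t.1 t.2.2 :=
    ((continuous_A Φ).comp cw).clm_apply cz
  exact ((c1.sub (cc.smul cw)).sub continuous_const).prodMk
    ((((cw.norm).pow 2).sub continuous_const).prodMk c4)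

/-- bounds for solutions of `q z - c w = u'`. -/
lemma sol_bound {Φ : Sys} {m : ℝ} (hm : 0 < m) (hmq : ∀ z, m * ‖z‖ ^ 2 ≤ ‖q Φ z‖) {w : W}
    {c : ℝ} {z : V} {u' : W} (hw : ‖w‖ = 1) (hA : A Φ w z = 0) (h : q Φ z - c • w = u') :
    |c| ≤ ‖u'‖ ∧ ‖z‖ ^ 2 ≤ 2 * ‖u'‖ / m := by
  have h1 : ⟪w, q Φ z⟫_ℝ = 0 := by
    rw [← inner_A_self, hA, inner_zero_left]
  have h2 : ⟪w, u'⟫_ℝ = -c := by
    rw [← h, inner_sub_right, h1, real_inner_smul_right, real_inner_self_eq_norm_sq, hw]; ring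
  have h3 : |c| ≤ ‖u'‖ := by
    have := abs_real_inner_le_norm w u'
    rw [h2, abs_neg, hw, one_mul] at this
    exact this
  refine ⟨h3, ?_⟩
  have h4 : ‖q Φ z‖ ≤ 2 * ‖u'‖ := by
    have e : q Φ z = u' + c • w := by rw [← h]; abel
    rw [e]
    calc ‖u' + c • w‖ ≤ ‖u'‖ + ‖c • w‖ := norm_add_le _ _
      _ = ‖u'‖ + |c| := by rw [norm_smul, hw, mul_one, Real.norm_eq_abs]
      _ ≤ 2 * ‖u'‖ := by linarith
  rw [le_div_iff₀ hm]
  have := hmq z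
  linarith

/-- A continuous odd extension. -/
lemma exists_odd_ext {S : Set W} (hSc : IsClosed S) (hneg : ∀ w ∈ S, -w ∈ S)
    {g : W → (Fin 4 → ℝ)} (hgc : ContinuousOn g S) (hgodd : ∀ w ∈ S, g (-w) = - g w) :
    ∃ G : W → (Fin 4 → ℝ), Continuous G ∧ (∀ w, G (-w) = - G w) ∧ ∀ w ∈ S, G w = g w := by
  obtain ⟨g1, hg1⟩ := ContinuousMap.exists_restrict_eq hSc
    (⟨S.domRestrict g, hgc.domRestrict⟩ : C(S, Fin 4 → ℝ))
  have hg1' : ∀ w ∈ S, g1 w = g w := fun w hw => by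
    have := congrArg (fun f : C(S, Fin 4 → ℝ) => f ⟨w, hw⟩) hg1
    exact this
  refine ⟨fun w => (1 / 2 : ℝ) • (g1 w - g1 (-w)), ?_, ?_, ?_⟩
  · have : Continuous fun w : W => g1 w - g1 (-w) :=
      g1.continuous.sub (g1.continuous.comp continuous_neg)
    exact this.const_smul (1 / 2 : ℝ)
  · intro w
    simp only [neg_neg]
    rw [← smul_neg, neg_sub]
  · intro w hw
    simp only
    rw [hg1' w hw, hg1' (-w) (hneg w hw), hgodd w hw, sub_neg_eq_add, ← two_smul ℝ,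
      smul_smul]
    norm_num

/-- All data of block EPS-2 with a globally defined odd map `G`, on a compact symmetric set `S`
of the stratum `D1`. -/
structure ED (Φ : Sys) (S : Set W) (G : W → (Fin 4 → ℝ)) (κ : W × V → ℂ)
    (L : (Fin 4 → ℝ) →L[ℝ] W) (L' : ℂ →L[ℝ] W) (u : W) (m : ℝ) : Prop where
  m_pos : 0 < m
  q_bound : ∀ z, m * ‖z‖ ^ 2 ≤ ‖q Φ z‖
  S_comp : IsCompact S
  S_D1 : S ⊆ D1 Φ
  G_cont : Continuous G
  G_odd : ∀ w, G (-w) = - G w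
  κ_cont : Continuous κ
  κ_neg : ∀ w z, κ (-w, z) = κ (w, z)
  κ_J : ∀ w z, κ (w, J z) = - κ (w, z)
  κ_0 : ∀ w, κ (w, 0) = 0
  κ_ne : ∀ w ∈ D1 Φ, ∀ z, z ≠ 0 → A Φ w z = 0 → κ (w, z) ≠ 0
  inj : ∀ x y, L x + L' y = 0 → x = 0 ∧ y = 0
  hu : ∀ x y, L x + L' y ≠ u
  L0 : ∀ w ∈ S, ∀ s ∈ Icc (0 : ℝ) 1, -((1 - s) • w) + s • L (G w) ≠ 0
  L1 : ∀ w ∈ S, ∀ s ∈ Icc (0 : ℝ) 1, ∀ μ : ℝ, μ • (-((1 - s) • w) + s • L (G w)) ≠ u
  big : ∀ w ∈ S, ∀ (c : ℝ) (z : V), |c| + ‖z‖ ^ 2 ≤ 2 → ∀ s ∈ Icc (0 : ℝ) 1,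
      ‖(1 - s) • (q Φ z - c • w) + s • (L (c • G w) + L' (κ (w, z)))‖ < ‖u‖

namespace ED

variable {Φ : Sys} {S : Set W} {G : W → (Fin 4 → ℝ)} {κ : W × V → ℂ}
    {L : (Fin 4 → ℝ) →L[ℝ] W} {L' : ℂ →L[ℝ] W} {u : W} {m : ℝ}

/-- The radius. -/
def rad (u : W) (m : ℝ) : ℝ := 2 + ‖u‖ + 2 * ‖u‖ / m

/-- no zeros at `z = 0`. -/
lemma z_ne (h : ED Φ S G κ L L' u m) {lam : ℝ} {p : EE} (hp : p.1 ∈ S)
    (h0 : HH Φ G κ L L' u lam p = 0) (h1 : 1 ≤ |p.2.1| + ‖p.2.2‖ ^ 2) : p.2.2 ≠ 0 := by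
  intro hz
  obtain ⟨e1, -, -⟩ := HH_zero_iff h0
  have hcne : p.2.1 ≠ 0 := by
    intro hc
    rw [hz, hc] at h1
    norm_num at h1
  have heq : p.2.1 • (-((1 - cutS p) • p.1) + cutS p • L (G p.1)) = lam • u := by
    rw [← e1]
    unfold HW
    rw [hz, q_zero, h.κ_0, map_zero, add_zero, map_smul, smul_add, smul_neg,
      smul_comm (p.2.1) (1 - cutS p), smul_comm (p.2.1) (cutS p), zero_sub, smul_neg]
  by_cases hl : lam = 0
  · rw [hl, zero_smul] at heq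
    rcases smul_eq_zero.mp heq with h2 | h2
    · exact hcne h2
    · exact h.L0 _ hp _ (cutS_mem p) h2
  · apply h.L1 _ hp _ (cutS_mem p) (lam⁻¹ * p.2.1)
    rw [mul_smul, heq, smul_smul, inv_mul_cancel₀ hl, one_smul]

/-- zeros with `z ≠ 0` are not near the origin. -/
lemma one_le (h : ED Φ S G κ L L' u m) {lam : ℝ} {p : EE} (hp : p.1 ∈ S) (hz : p.2.2 ≠ 0)
    (h0 : HH Φ G κ L L' u lam p = 0) : 1 ≤ |p.2.1| + ‖p.2.2‖ ^ 2 := by
  obtain ⟨e1, -, e3⟩ := HH_zero_iff h0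
  by_contra hcon
  push Not at hcon
  unfold HW at e1
  rw [cutS_eq_one hcon.le, sub_self, zero_smul, zero_add, one_smul] at e1
  by_cases hl : lam = 0
  · rw [hl, zero_smul] at e1
    exact h.κ_ne _ (h.S_D1 hp) _ hz e3 (h.inj _ _ e1).2
  · apply h.hu (lam⁻¹ • (p.2.1 • G p.1)) (lam⁻¹ • κ (p.1, p.2.2))
    rw [map_smul L lam⁻¹, map_smul L' lam⁻¹, ← smul_add, e1, smul_smul, inv_mul_cancel₀ hl,
      one_smul]

lemma rad_aux (h : ED Φ S G κ L L' u m) : 0 ≤ ‖u‖ ∧ 0 ≤ 2 * ‖u‖ / m := by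
  have hm := h.m_pos
  exact ⟨norm_nonneg u, by positivity⟩

/-- upper bounds for the zeros. -/
lemma bounds (h : ED Φ S G κ L L' u m) {lam : ℝ} (hlam : lam ∈ Icc (0 : ℝ) 1) {p : EE}
    (h0 : HH Φ G κ L L' u lam p = 0) : |p.2.1| ≤ rad u m ∧ ‖p.2.2‖ ^ 2 ≤ rad u m := by
  obtain ⟨e1, e2, e3⟩ := HH_zero_iff h0
  obtain ⟨hu0, hq0⟩ := h.rad_aux
  unfold rad
  by_cases hc2 : 2 ≤ |p.2.1| + ‖p.2.2‖ ^ 2
  · unfold HW at e1
    rw [cutS_eq_zero hc2, sub_zero, one_smul, zero_smul, add_zero] at e1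
    obtain ⟨b1, b2⟩ := sol_bound h.m_pos h.q_bound e2 e3 e1
    have hlu : ‖lam • u‖ ≤ ‖u‖ := by
      rw [norm_smul, Real.norm_of_nonneg hlam.1]
      exact mul_le_of_le_one_left hu0 hlam.2
    have hm := h.m_pos
    have b3 : 2 * ‖lam • u‖ / m ≤ 2 * ‖u‖ / m := by gcongr
    constructor <;> linarith
  · push Not at hc2
    have := abs_nonneg p.2.1
    have := sq_nonneg ‖p.2.2‖
    constructor <;> linarith

/-- The big box. -/
def box (S : Set W) (R : ℝ) : Set EE := S ×ˢ (Icc (-R) R ×ˢ closedBall (0 : V) (R + 1))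

lemma isCompact_box {S : Set W} (hS : IsCompact S) (R : ℝ) : IsCompact (box S R) :=
  hS.prod (isCompact_Icc.prod (isCompact_closedBall _ _))

lemma mem_box {S : Set W} {R : ℝ} {p : EE} (h1 : p.1 ∈ S) (h2 : |p.2.1| ≤ R)
    (h3 : ‖p.2.2‖ ^ 2 ≤ R) : p ∈ box S R := by
  refine ⟨h1, abs_le.mp h2, ?_⟩
  rw [mem_closedBall_zero_iff]
  nlinarith [norm_nonneg p.2.2, sq_nonneg (‖p.2.2‖ - 1)]

/-- The compact set of all zeros of the homotopy. -/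
def KK (Φ : Sys) (S : Set W) (G : W → (Fin 4 → ℝ)) (κ : W × V → ℂ)
    (L : (Fin 4 → ℝ) →L[ℝ] W) (L' : ℂ →L[ℝ] W) (u : W) (m : ℝ) : Set EE :=
  Prod.snd '' ((Icc (0 : ℝ) 1 ×ˢ box S (rad u m)) ∩
    {t : ℝ × EE | HH Φ G κ L L' u t.1 t.2 = 0 ∧ 1 ≤ |t.2.2.1| + ‖t.2.2.2‖ ^ 2})

lemma isCompact_KK (h : ED Φ S G κ L L' u m) : IsCompact (KK Φ S G κ L L' u m) := by
  apply IsCompact.image _ continuous_snd
  apply IsCompact.inter_right (isCompact_Icc.prod (isCompact_box h.S_comp _))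
  apply IsClosed.inter
  · exact isClosed_eq (continuous_HH Φ h.G_cont h.κ_cont L L' u) continuous_const
  · have hc : Continuous fun t : ℝ × EE => |t.2.2.1| + ‖t.2.2.2‖ ^ 2 := by fun_prop
    exact isClosed_le continuous_const hc

lemma mem_KK (h : ED Φ S G κ L L' u m) {lam : ℝ} (hlam : lam ∈ Icc (0 : ℝ) 1) {p : EE}
    (hp : p.1 ∈ S) (hz : p.2.2 ≠ 0) (h0 : HH Φ G κ L L' u lam p = 0) :
    p ∈ KK Φ S G κ L L' u m :=
  ⟨(lam, p), ⟨⟨hlam, mem_box hp (h.bounds hlam h0).1 (h.bounds hlam h0).2⟩, h0,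
    h.one_le hp hz h0⟩, rfl⟩

lemma KK_sub (h : ED Φ S G κ L L' u m) {p : EE} (hp : p ∈ KK Φ S G κ L L' u m) :
    p.1 ∈ S ∧ p.2.2 ≠ 0 := by
  obtain ⟨t, ⟨⟨ht1, ht2⟩, ht3, ht4⟩, rfl⟩ := hp
  exact ⟨ht2.1, h.z_ne ht2.1 ht3 ht4⟩

/-- zeros of `sys0` over `S`. -/
lemma sys0_far (h : ED Φ S G κ L L' u m) {p : EE} (hp : p.1 ∈ S) (h0 : sys0 Φ u p = 0) :
    2 < |p.2.1| + ‖p.2.2‖ ^ 2 ∧ p.2.2 ≠ 0 := by
  obtain ⟨e1, -, -⟩ := sys0_zero h0
  constructor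
  · by_contra hcon
    push Not at hcon
    have := h.big p.1 hp p.2.1 p.2.2 hcon 0 ⟨le_rfl, zero_le_one⟩
    rw [sub_zero, one_smul, zero_smul, add_zero, e1] at this
    exact lt_irrefl _ this
  · intro hz
    rw [hz, q_zero, zero_sub] at e1
    apply h.L1 p.1 hp 0 ⟨le_rfl, zero_le_one⟩ p.2.1
    rw [sub_zero, one_smul, zero_smul, add_zero, smul_neg]
    exact e1

lemma HH1_far (h : ED Φ S G κ L L' u m) {p : EE} (hp : p.1 ∈ S)
    (h0 : HH Φ G κ L L' u 1 p = 0) : 2 < |p.2.1| + ‖p.2.2‖ ^ 2 := by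
  obtain ⟨e1, -, -⟩ := HH_zero_iff h0
  by_contra hcon
  push Not at hcon
  have := h.big p.1 hp p.2.1 p.2.2 hcon (cutS p) (cutS_mem p)
  unfold HW at e1
  rw [e1, one_smul] at this
  exact lt_irrefl _ this

lemma sys0_mem_box (h : ED Φ S G κ L L' u m) {p : EE} (hp : p.1 ∈ S) (h0 : sys0 Φ u p = 0) :
    p ∈ box S (rad u m) := by
  obtain ⟨e1, e2, e3⟩ := sys0_zero h0
  obtain ⟨hu0, hq0⟩ := h.rad_aux
  obtain ⟨b1, b2⟩ := sol_bound h.m_pos h.q_bound e2 e3 e1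
  unfold rad
  exact mem_box hp (by linarith) (by linarith)

/-- Comparison of the two degrees. -/
lemma deg_eq (h : ED Φ S G κ L L' u m) {N N' : Set W} (hN : IsOpen N) (hN' : IsOpen N')
    (hN'N : N' ⊆ N) (hSN' : S ⊆ N')
    (hNS : ∀ w ∈ N, ‖w‖ = 1 → ∀ z : V, z ≠ 0 → A Φ w z = 0 → w ∈ S) :
    Adm (HH Φ G κ L L' u 0) (dom N') ∧
      deg (sys0 Φ u) (dom N) = deg (HH Φ G κ L L' u 0) (dom N') := by
  have hcH := continuous_HH Φ h.G_cont h.κ_cont L L' u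
  have hcl : ∀ lam, Continuous (HH Φ G κ L L' u lam) := fun lam =>
    continuous_HH_lam Φ h.G_cont h.κ_cont L L' u lam
  have hKc := h.isCompact_KK
  have hKU : KK Φ S G κ L L' u m ⊆ dom N' := fun p hp => ⟨hSN' (h.KK_sub hp).1, (h.KK_sub hp).2⟩
  have hmem : ∀ lam, ∀ p ∈ dom N', HH Φ G κ L L' u lam p = 0 → p.1 ∈ S := by
    intro lam p hp h0
    obtain ⟨-, e2, e3⟩ := HH_zero_iff h0
    exact hNS _ (hN'N hp.1) e2 _ hp.2 e3
  have hzeros : ∀ lam ∈ Icc (0 : ℝ) 1, ∀ p ∈ dom N', HH Φ G κ L L' u lam p = 0 →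
      p ∈ KK Φ S G κ L L' u m := fun lam hlam p hp h0 =>
    h.mem_KK hlam (hmem lam p hp h0) hp.2 h0
  have hadm : ∀ lam ∈ Icc (0 : ℝ) 1, Adm (HH Φ G κ L L' u lam) (dom N') := fun lam hlam =>
    Adm.of_subset_compact (isOpen_dom hN') (hcl lam).continuousOn hKc hKU (hzeros lam hlam)
  have h01 : deg (HH Φ G κ L L' u 0) (dom N') = deg (HH Φ G κ L L' u 1) (dom N') :=
    deg_homotopy (HH Φ G κ L L' u) (isOpen_dom hN') hcH.continuousOn hKc hKU hzeros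
  refine ⟨hadm 0 ⟨le_rfl, zero_le_one⟩, ?_⟩
  -- sys0
  have hsz : ∀ p ∈ dom N, sys0 Φ u p = 0 → p.1 ∈ S := by
    intro p hp h0
    obtain ⟨-, e2, e3⟩ := sys0_zero h0
    exact hNS _ hp.1 e2 _ hp.2 e3
  have hK1c : IsCompact (box S (rad u m) ∩ {p | sys0 Φ u p = 0}) :=
    (isCompact_box h.S_comp _).inter_right (isClosed_eq (continuous_sys0 Φ u) continuous_const)
  have hadm0 : Adm (sys0 Φ u) (dom N) :=
    Adm.of_subset_compact (isOpen_dom hN) (continuous_sys0 Φ u).continuousOn hK1c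
      (fun p hp => ⟨hN'N (hSN' hp.1.1), (h.sys0_far hp.1.1 hp.2).2⟩)
      (fun p hp h0 => ⟨h.sys0_mem_box (hsz p hp h0) h0, h0⟩)
  -- the common open set
  have hU2o : IsOpen (dom N' ∩ {p : EE | 2 < |p.2.1| + ‖p.2.2‖ ^ 2}) :=
    (isOpen_dom hN').inter (isOpen_lt continuous_const (by fun_prop))
  have hsub : dom N' ∩ {p : EE | 2 < |p.2.1| + ‖p.2.2‖ ^ 2} ⊆ dom N :=
    fun p hp => ⟨hN'N hp.1.1, hp.1.2⟩
  have hzin : ∀ p ∈ dom N, sys0 Φ u p = 0 →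
      p ∈ dom N' ∩ {p : EE | 2 < |p.2.1| + ‖p.2.2‖ ^ 2} := fun p hp h0 =>
    ⟨⟨hSN' (hsz p hp h0), hp.2⟩, (h.sys0_far (hsz p hp h0) h0).1⟩
  have hA1 := deg_excision hadm0 hU2o hsub hzin
  have hA2 := deg_excision (hadm 1 ⟨zero_le_one, le_rfl⟩) hU2o (fun p hp => hp.1)
    (fun p hp h0 => ⟨hp, h.HH1_far (hmem 1 p hp h0) h0⟩)
  have hA3 : deg (sys0 Φ u) (dom N' ∩ {p : EE | 2 < |p.2.1| + ‖p.2.2‖ ^ 2})
      = deg (HH Φ G κ L L' u 1) (dom N' ∩ {p : EE | 2 < |p.2.1| + ‖p.2.2‖ ^ 2}) := by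
    apply deg_congr (hadm0.mono hU2o hsub hzin)
    intro p hp
    have hc : cutS p = 0 := cutS_eq_zero (le_of_lt hp.2)
    unfold HH HW sys0
    rw [hc, sub_zero, one_smul, zero_smul, add_zero, one_smul]
  rw [← hA1, hA3, hA2, h01]

end ED

/-! ### Equivariance -/

lemma zr_cases (g : G8) : (zz g = 1 ∧ rr8 g = 1) ∨ (zz g = -1 ∧ rr8 g = 1) ∨
    (zz g = Complex.I ∧ rr8 g = -1) ∨ (zz g = -Complex.I ∧ rr8 g = -1) := by
  rcases zz_cases g with h | h | h | h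
  · left; refine ⟨h, ?_⟩; unfold rr8; rw [h]; norm_num
  · right; left; refine ⟨h, ?_⟩; unfold rr8; rw [h]; norm_num
  · right; right; left; refine ⟨h, ?_⟩; unfold rr8; rw [h]; simp
  · right; right; right; refine ⟨h, ?_⟩; unfold rr8; rw [h]; simp

lemma negI_smul (z : V) : (-Complex.I) • z = -(J z) := by rw [neg_smul, J_apply]

lemma norm_zz_smul (g : G8) (z : V) : ‖zz g • z‖ = ‖z‖ := by
  rcases zr_cases g with ⟨h, -⟩ | ⟨h, -⟩ | ⟨h, -⟩ | ⟨h, -⟩ <;> rw [h]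
  · rw [one_smul]
  · rw [neg_one_smul, norm_neg]
  · exact norm_J z
  · rw [negI_smul, norm_neg, norm_J]

lemma q_zz (Φ : Sys) (g : G8) (z : V) : q Φ (zz g • z) = rr8 g • q Φ z := by
  rcases zr_cases g with ⟨h, h'⟩ | ⟨h, h'⟩ | ⟨h, h'⟩ | ⟨h, h'⟩ <;> rw [h, h']
  · rw [one_smul, one_smul]
  · rw [neg_one_smul, q_neg, one_smul]
  · rw [neg_one_smul]; exact q_J Φ z
  · rw [negI_smul, q_neg, q_J, neg_one_smul]

lemma A_zz (Φ : Sys) (w : W) (g : G8) (z : V) :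
    rr8 g • A Φ w (zz g • z) = zz g • A Φ w z := by
  rcases zr_cases g with ⟨h, h'⟩ | ⟨h, h'⟩ | ⟨h, h'⟩ | ⟨h, h'⟩ <;> rw [h, h']
  · simp only [one_smul]
  · rw [one_smul, neg_one_smul, map_neg, neg_one_smul]
  · rw [neg_one_smul]
    have := A_J Φ w z
    rw [J_apply, J_apply] at this
    rw [this, neg_neg]
  · rw [negI_smul, negI_smul, map_neg, A_J, neg_neg, neg_one_smul]

lemma G_sgn {G : W → (Fin 4 → ℝ)} (hG : ∀ w, G (-w) = - G w) {x : ℝ} (hx : x = 1 ∨ x = -1)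
    (w : W) : G (x • w) = x • G w := by
  rcases hx with h | h <;> rw [h]
  · rw [one_smul, one_smul]
  · rw [neg_one_smul, neg_one_smul, hG]

lemma κ_sgn {κ : W × V → ℂ} (h1 : ∀ w z, κ (-w, z) = κ (w, z))
    (h2 : ∀ w z, κ (w, J z) = - κ (w, z)) {x : ℝ} (hx : x = 1 ∨ x = -1) (w : W) (g : G8)
    (z : V) : κ (x • w, zz g • z) = rr8 g • κ (w, z) := by
  have h3 : ∀ z, κ (w, -z) = κ (w, z) := by
    intro z
    rw [← J_J, h2, h2, neg_neg]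
  have h4 : κ (x • w, zz g • z) = κ (w, zz g • z) := by
    rcases hx with h | h <;> rw [h]
    · rw [one_smul]
    · rw [neg_one_smul, h1]
  rw [h4]
  rcases zr_cases g with ⟨h, h'⟩ | ⟨h, h'⟩ | ⟨h, h'⟩ | ⟨h, h'⟩ <;> rw [h, h']
  · rw [one_smul, one_smul]
  · rw [neg_one_smul, h3, one_smul]
  · rw [neg_one_smul]; exact h2 w z
  · rw [negI_smul, h3, h2, neg_one_smul]

lemma xe_cases (g : G8) : rr8 g * ee8 g = 1 ∨ rr8 g * ee8 g = -1 := by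
  rcases rr8_cases g with h | h <;> rcases ee8_cases g with h' | h' <;> rw [h, h'] <;> norm_num

lemma ee8_sq (g : G8) : ee8 g * ee8 g = 1 := by
  rcases ee8_cases g with h | h <;> rw [h] <;> norm_num

lemma cutS_aH (g : G8) (p : EE) : cutS (aH g p) = cutS p := by
  unfold cutS
  rw [aH_apply]
  simp only
  rw [norm_zz_smul, abs_mul]
  have : |ee8 g| = 1 := by rcases ee8_cases g with h | h <;> rw [h] <;> norm_num
  rw [this, one_mul]

lemma HW_aH {Φ : Sys} {G : W → (Fin 4 → ℝ)} {κ : W × V → ℂ}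
    (L : (Fin 4 → ℝ) →L[ℝ] W) (L' : ℂ →L[ℝ] W) (hG : ∀ w, G (-w) = - G w)
    (h1 : ∀ w z, κ (-w, z) = κ (w, z)) (h2 : ∀ w z, κ (w, J z) = - κ (w, z)) (g : G8) (p : EE) :
    HW Φ G κ L L' (aH g p) = rr8 g • HW Φ G κ L L' p := by
  unfold HW
  rw [cutS_aH, aH_apply]
  simp only
  rw [q_zz, G_sgn hG (xe_cases g), κ_sgn h1 h2 (xe_cases g), map_smul L', smul_smul, smul_smul]
  have e1 : ee8 g * p.2.1 * (rr8 g * ee8 g) = rr8 g * p.2.1 := by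
    linear_combination (rr8 g * p.2.1) * ee8_sq g
  rw [e1, mul_smul, mul_smul, map_smul L (rr8 g), ← smul_sub, ← smul_add,
    smul_comm (1 - cutS p) (rr8 g), smul_comm (cutS p) (rr8 g), ← smul_add]

lemma HH_aH {Φ : Sys} {G : W → (Fin 4 → ℝ)} {κ : W × V → ℂ}
    (L : (Fin 4 → ℝ) →L[ℝ] W) (L' : ℂ →L[ℝ] W) (u : W) (hG : ∀ w, G (-w) = - G w)
    (h1 : ∀ w z, κ (-w, z) = κ (w, z)) (h2 : ∀ w z, κ (w, J z) = - κ (w, z)) (g : G8) (p : EE) :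
    HH Φ G κ L L' u 0 (aH g p) = bH g (HH Φ G κ L L' u 0 p) := by
  rw [bH_apply]
  unfold HH
  simp only
  rw [HW_aH L L' hG h1 h2, zero_smul, sub_zero, sub_zero]
  refine Prod.ext rfl (Prod.ext ?_ ?_)
  · simp only [aH_apply]
    rw [norm_smul, Real.norm_eq_abs]
    have : |rr8 g * ee8 g| = 1 := by rcases xe_cases g with h | h <;> rw [h] <;> norm_num
    rw [this, one_mul]
  · simp only [aH_apply]
    rw [A_smul]
    change (rr8 g * ee8 g) • A Φ p.1 (zz g • p.2.2) = _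
    rw [mul_comm, mul_smul, A_zz, mul_smul]
    rfl

/-- **Block EPS-2.** -/
theorem eps {Φ : Sys} (hS : Symm Φ) (hZ : ZeroFree Φ) {g : W → (Fin 4 → ℝ)}
    (hgc : ContinuousOn g (AA Φ)) (hgodd : ∀ w ∈ AA Φ, g (-w) = - g w)
    (_hg0 : ∀ w ∈ AA Φ, g w ≠ 0) {κ : W × V → ℂ} (hκ : Continuous κ)
    (hκneg : ∀ w z, κ (-w, z) = κ (w, z)) (hκJ : ∀ w z, κ (w, J z) = - κ (w, z))
    (hκ0 : ∀ w, κ (w, 0) = 0)
    (hκne : ∀ w ∈ D1 Φ, ∀ z, z ≠ 0 → A Φ w z = 0 → κ (w, z) ≠ 0)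
    (L : (Fin 4 → ℝ) →L[ℝ] W) (L' : ℂ →L[ℝ] W) (hinj : ∀ x y, L x + L' y = 0 → x = 0 ∧ y = 0)
    {u : W} (hu : ∀ x y, L x + L' y ≠ u)
    (hL0 : ∀ w ∈ AA Φ, ∀ s ∈ Icc (0 : ℝ) 1, -((1 - s) • w) + s • L (g w) ≠ 0)
    (hL1 : ∀ w ∈ AA Φ, ∀ s ∈ Icc (0 : ℝ) 1, ∀ μ : ℝ, μ • (-((1 - s) • w) + s • L (g w)) ≠ u)
    (hbig : ∀ w ∈ AA Φ, ∀ (c : ℝ) (z : V), |c| + ‖z‖ ^ 2 ≤ 2 → ∀ s ∈ Icc (0 : ℝ) 1,
      ‖(1 - s) • (q Φ z - c • w) + s • (L (c • g w) + L' (κ (w, z)))‖ < ‖u‖)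
    {N : Set W} (hN : IsOpen N) (hAN : ∀ w ∈ D Φ, w ∈ N ↔ w ∈ AA Φ) :
    (8 : ℤ) ∣ deg (sys0 Φ u) (dom N) := by
  obtain ⟨m, hm, hmq⟩ := exists_q_bound hZ
  have hAc := isCompact_AA hS hZ
  have hAD : ∀ w ∈ AA Φ, w ∈ D Φ := by
    intro w hw
    refine ⟨hw.1.1, ?_⟩
    have h2 : Module.finrank ℝ (LinearMap.ker (A Φ w).toLinearMap) = 2 := hw.1.2
    have hne : LinearMap.ker (A Φ w).toLinearMap ≠ ⊥ := by
      intro h; rw [h, finrank_bot] at h2; norm_num at h2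
    obtain ⟨z, hz, hz0⟩ := (Submodule.ne_bot_iff _).1 hne
    exact ⟨z, hz0, by simpa using hz⟩
  obtain ⟨G, hGc, hGodd, hGg⟩ := exists_odd_ext hAc.isClosed (fun w hw => neg_mem_AA hS hZ hw)
    hgc hgodd
  have hED : ED Φ (AA Φ) G κ L L' u m :=
    { m_pos := hm
      q_bound := hmq
      S_comp := hAc
      S_D1 := fun w hw => hw.1
      G_cont := hGc
      G_odd := hGodd
      κ_cont := hκ
      κ_neg := hκneg
      κ_J := hκJ
      κ_0 := hκ0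
      κ_ne := hκne
      inj := hinj
      hu := hu
      L0 := fun w hw s hs => by rw [hGg w hw]; exact hL0 w hw s hs
      L1 := fun w hw s hs μ => by rw [hGg w hw]; exact hL1 w hw s hs μ
      big := fun w hw c z h s hs => by rw [hGg w hw]; exact hbig w hw c z h s hs }
  -- symmetric neighbourhood
  have hN'o : IsOpen ((N ∩ (fun w => -w) ⁻¹' N) ∩ {0}ᶜ) :=
    (hN.inter (hN.preimage continuous_neg)).inter isOpen_compl_singleton
  have hAN' : AA Φ ⊆ (N ∩ (fun w => -w) ⁻¹' N) ∩ {0}ᶜ := by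
    intro w hw
    refine ⟨⟨(hAN w (hAD w hw)).2 hw, ?_⟩, ?_⟩
    · have h2 := neg_mem_AA hS hZ hw
      exact (hAN (-w) (hAD _ h2)).2 h2
    · intro h0
      have h1 : ‖w‖ = 1 := hw.1.1
      rw [h0, norm_zero] at h1
      exact zero_ne_one h1
  obtain ⟨hadm, hdeg⟩ := hED.deg_eq hN hN'o (fun w hw => hw.1.1) hAN'
    (fun w hwN hw z hz hz0 => (hAN w ⟨hw, z, hz, hz0⟩).1 hwN)
  rw [hdeg]
  have hep := ep aH bH hadm ?_ ?_ ?_ det_pos8
  · rw [card_G8] at hep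
    exact_mod_cast hep
  · -- invariance
    intro g p hp
    rw [aH_apply]
    refine ⟨?_, ?_⟩
    · rcases xe_cases g with h | h
      · simp only
        rw [h, one_smul]; exact hp.1
      · simp only
        rw [h, neg_one_smul]
        refine ⟨⟨hp.1.1.2, ?_⟩, ?_⟩
        · change - - p.1 ∈ N
          rw [neg_neg]; exact hp.1.1.1
        · intro h0
          exact hp.1.2 (neg_eq_zero.mp h0)
    · intro h0
      have h1 := norm_zz_smul g p.2.2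
      simp only at h0
      rw [h0, norm_zero] at h1
      exact hp.2 (norm_eq_zero.mp h1.symm)
  · -- freeness
    intro g hg p hp h0
    apply hg
    rw [aH_apply] at h0
    have e1 : (rr8 g * ee8 g) • p.1 = p.1 := congrArg Prod.fst h0
    have e3 : zz g • p.2.2 = p.2.2 := congrArg (fun x : EE => x.2.2) h0
    have hz1 : zz g = 1 := by
      have h1 : (zz g - 1) • p.2.2 = 0 := by rw [sub_smul, one_smul, e3, sub_self]
      rcases smul_eq_zero.mp h1 with h | h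
      · exact sub_eq_zero.mp h
      · exact absurd h hp.2
    have hr1 : rr8 g = 1 := by unfold rr8; rw [hz1]; norm_num
    have he1 : ee8 g = 1 := by
      rw [hr1, one_mul] at e1
      have h1 : (ee8 g - 1) • p.1 = 0 := by rw [sub_smul, one_smul, e1, sub_self]
      rcases smul_eq_zero.mp h1 with h | h
      · exact sub_eq_zero.mp h
      · exact absurd h hp.1.2
    apply Prod.ext
    · apply Subtype.ext
      apply Units.ext
      exact hz1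
    · apply Units.ext
      have h9 : ((g.2 : ℤ) : ℝ) = 1 := he1
      have h10 : (g.2 : ℤ) = 1 := by exact_mod_cast h9
      exact h10
  · intro g p _
    exact HH_aH L L' u hGodd hκneg hκJ g p

end

end Pool.Agent.Flip
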