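import Pool.Agent.Lib_helper47.Flip.Base

/-!
# Block EPS-2, first part: the invariant `κ`
-/

set_option autoImplicit false

namespace Pool.Agent.Flip

open scoped InnerProductSpace ComplexConjugate
open Complex Set Metric Filter Topology Pool.Agent.Deg47 Matrix

noncomputable section

/-- The vector `conj z`. -/
def cj (z : V) : Fin 5 → ℂ := fun i => conj (z i)

/-- `det (φ + t u uᵀ)` with `u = conj z`. -/
def dS (M : Matrix (Fin 5) (Fin 5) ℂ) (t : ℂ) (z : V) : ℂ :=
  (M + t • vecMulVec (cj z) (cj z)).det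

/-- The invariant. -/
def kap (Φ : Sys) (p : W × V) : ℂ :=
  conj (dS (phi Φ p.1) 1 p.2 - dS (phi Φ p.1) (-1) p.2)

lemma continuous_phi (Φ : Sys) : Continuous (phi Φ) := by
  unfold phi
  refine continuous_finsetSum _ fun j _ => ?_
  exact (Complex.continuous_ofReal.comp (by fun_prop)).smul continuous_const

lemma continuous_cj : Continuous cj := by
  unfold cj
  refine continuous_pi fun i => ?_
  exact Complex.continuous_conj.comp (by fun_prop)

lemma continuous_dS (Φ : Sys) (t : ℂ) : Continuous fun p : W × V => dS (phi Φ p.1) t p.2 := by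
  unfold dS
  refine Continuous.matrix_det ?_
  refine ((continuous_phi Φ).comp continuous_fst).add ?_
  have h : Continuous fun p : W × V => vecMulVec (cj p.2) (cj p.2) :=
    Continuous.matrix_vecMulVec (continuous_cj.comp continuous_snd)
      (continuous_cj.comp continuous_snd)
  exact h.const_smul t

lemma continuous_kap (Φ : Sys) : Continuous (kap Φ) := by
  unfold kap
  exact Complex.continuous_conj.comp ((continuous_dS Φ 1).sub (continuous_dS Φ (-1)))

lemma phi_neg (Φ : Sys) (w : W) : phi Φ (-w) = - phi Φ w := by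
  have h := phi_smul Φ (-1) w
  rw [neg_one_smul] at h
  rw [h]; simp

lemma dS_neg (M : Matrix (Fin 5) (Fin 5) ℂ) (t : ℂ) (z : V) : dS (-M) t z = - dS M (-t) z := by
  unfold dS
  have h : -M + t • vecMulVec (cj z) (cj z) = -(M + (-t) • vecMulVec (cj z) (cj z)) := by
    rw [neg_add, neg_smul, neg_neg]
  rw [h, Matrix.det_neg]
  simp only [Fintype.card_fin]
  ring

lemma kap_neg (Φ : Sys) (w : W) (z : V) : kap Φ (-w, z) = kap Φ (w, z) := by
  unfold kap
  simp only [phi_neg, dS_neg, neg_neg]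
  congr 1
  ring

lemma dS_J (M : Matrix (Fin 5) (Fin 5) ℂ) (t : ℂ) (z : V) : dS M t (J z) = dS M (-t) z := by
  unfold dS
  congr 2
  have hc : cj (J z) = (-Complex.I) • cj z := by
    funext i
    change conj (Complex.I * z i) = -Complex.I * conj (z i)
    rw [map_mul, Complex.conj_I]
  ext i j
  simp only [hc, Matrix.smul_apply, vecMulVec_apply, Pi.smul_apply, smul_eq_mul]
  have := Complex.I_mul_I
  linear_combination (t * cj z i * cj z j) * this

lemma kap_J (Φ : Sys) (w : W) (z : V) : kap Φ (w, J z) = - kap Φ (w, z) := by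
  unfold kap
  simp only [dS_J, neg_neg, ← map_neg]
  congr 1
  ring

lemma kap_zero (Φ : Sys) (w : W) : kap Φ (w, 0) = 0 := by
  unfold kap dS
  have hc : cj (0 : V) = 0 := by
    funext i; simp [cj]
  simp [hc, vecMulVec_zero]

lemma cj_dot (z : V) : dotProduct (cj z) (WithLp.ofLp z) = ((‖z‖ ^ 2 : ℝ) : ℂ) := by
  have h : ‖z‖ ^ 2 = ∑ i, ‖z i‖ ^ 2 := EuclideanSpace.norm_sq_eq z
  rw [h, Complex.ofReal_sum]
  unfold dotProduct cj
  refine Finset.sum_congr rfl fun i _ => ?_
  rw [mul_comm, Complex.mul_conj, Complex.normSq_eq_norm_sq]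

lemma mulVec_eq_zero_iff (Φ : Sys) (w : W) (z : V) :
    A Φ w z = 0 ↔ (phi Φ w).mulVec (WithLp.ofLp z) = 0 := by
  constructor
  · intro h
    funext i
    have h1 := congrArg (fun y : V => y i) h
    simp only [A_apply] at h1
    have h2 := congrArg (starRingEnd ℂ) h1
    simpa using h2
  · intro h
    ext i
    rw [A_apply, h]
    simp

/-- Kernel elements are complex multiples of one nonzero kernel element. -/
lemma ker_span {Φ : Sys} {w : W} (hw : w ∈ D1 Φ) {z x : V} (hz : z ≠ 0) (hz0 : A Φ w z = 0)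
    (hx : A Φ w x = 0) : ∃ a b : ℝ, x = a • z + b • J z := by
  have hnz : 0 < ‖z‖ ^ 2 := by positivity
  have hli : LinearIndependent ℝ ![z, J z] := by
    rw [LinearIndependent.pair_iff]
    intro a b hab
    have h1 : ‖a • z + b • J z‖ ^ 2 = (a ^ 2 + b ^ 2) * ‖z‖ ^ 2 := by
      rw [← real_inner_self_eq_norm_sq, inner_add_left, inner_add_right, inner_add_right,
        real_inner_smul_left, real_inner_smul_right, real_inner_smul_left, real_inner_smul_right,
        real_inner_smul_left, real_inner_smul_right, real_inner_smul_left, real_inner_smul_right,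
        inner_J, real_inner_comm (J z) z, inner_J_self, real_inner_self_eq_norm_sq]
      ring
    rw [hab, norm_zero] at h1
    have h2 : a ^ 2 + b ^ 2 = 0 := by
      rcases mul_eq_zero.mp (h1.symm.trans (by norm_num)) with h | h
      · exact h
      · exact absurd h hnz.ne'
    constructor
    · nlinarith [sq_nonneg a, sq_nonneg b]
    · nlinarith [sq_nonneg a, sq_nonneg b]
  have hker : ∀ y, A Φ w y = 0 ↔ y ∈ LinearMap.ker (A Φ w).toLinearMap := fun y => by
    rw [LinearMap.mem_ker]; rfl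
  have hle : Submodule.span ℝ (Set.range ![z, J z]) ≤ LinearMap.ker (A Φ w).toLinearMap := by
    rw [Submodule.span_le]
    rintro _ ⟨i, rfl⟩
    fin_cases i
    · exact (hker z).mp hz0
    · refine (hker (J z)).mp ?_
      rw [A_J, hz0, map_zero, neg_zero]
  have heq : Submodule.span ℝ (Set.range ![z, J z]) = LinearMap.ker (A Φ w).toLinearMap := by
    apply Submodule.eq_of_le_of_finrank_eq hle
    rw [hw.2]
    have := linearIndependent_iff_card_eq_finrank_span.mp hli
    simpa [Set.finrank] using this.symm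
  have hxm : x ∈ Submodule.span ℝ (Set.range ![z, J z]) := by
    rw [heq]; exact (hker x).mp hx
  obtain ⟨c, hc⟩ := (Submodule.mem_span_range_iff_exists_fun ℝ).mp hxm
  refine ⟨c 0, c 1, ?_⟩
  rw [← hc, Fin.sum_univ_two]
  rfl

lemma det_ne_zero_of_D1 {Φ : Sys} (hS : Symm Φ) {w : W} (hw : w ∈ D1 Φ) {z : V} (hz : z ≠ 0)
    (hz0 : A Φ w z = 0) : dS (phi Φ w) 1 z ≠ 0 := by
  have hnz : 0 < ‖z‖ ^ 2 := by positivity
  have hnzC : ((‖z‖ ^ 2 : ℝ) : ℂ) ≠ 0 := by exact_mod_cast hnz.ne'
  intro hdet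
  unfold dS at hdet
  rw [one_smul] at hdet
  obtain ⟨x, hx0, hx⟩ := Matrix.exists_mulVec_eq_zero_iff.mpr hdet
  rw [Matrix.add_mulVec] at hx
  have hMz : (phi Φ w).mulVec (WithLp.ofLp z) = 0 := (mulVec_eq_zero_iff Φ w z).mp hz0
  have hsymm : (phi Φ w).transpose = phi Φ w := by
    unfold phi
    rw [Matrix.transpose_sum]
    refine Finset.sum_congr rfl fun j _ => ?_
    rw [Matrix.transpose_smul, (hS j).eq]
  -- pair with z
  have h1 : dotProduct (WithLp.ofLp z) ((phi Φ w).mulVec x) = 0 := by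
    rw [Matrix.dotProduct_mulVec, ← Matrix.mulVec_transpose, hsymm, hMz, zero_dotProduct]
  have h2 : (vecMulVec (cj z) (cj z)).mulVec x = (dotProduct (cj z) x) • cj z := by
    funext i
    simp only [Matrix.mulVec, vecMulVec_apply, dotProduct, Pi.smul_apply, smul_eq_mul,
      Finset.sum_mul]
    refine Finset.sum_congr rfl fun j _ => ?_
    ring
  have h3 := congrArg (dotProduct (WithLp.ofLp z)) hx
  rw [dotProduct_add, h1, h2, dotProduct_smul, dotProduct_comm (WithLp.ofLp z) (cj z), cj_dot,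
    dotProduct_zero, zero_add, smul_eq_mul] at h3
  have h4 : dotProduct (cj z) x = 0 := by
    rcases mul_eq_zero.mp h3 with h | h
    · exact h
    · exact absurd h hnzC
  rw [h2, h4, zero_smul, add_zero] at hx
  have hxker : A Φ w (WithLp.toLp 2 x) = 0 := (mulVec_eq_zero_iff Φ w _).mpr hx
  obtain ⟨a, b, hab⟩ := ker_span hw hz hz0 hxker
  have hxz : x = ((a : ℂ) + b * Complex.I) • (WithLp.ofLp z) := by
    have h5 := congrArg WithLp.ofLp hab
    change x = _ at h5
    rw [h5]
    funext i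
    change (a : ℂ) * z i + (b : ℂ) * (Complex.I * z i) = ((a : ℂ) + b * Complex.I) * z i
    ring
  rw [hxz, dotProduct_smul, cj_dot, smul_eq_mul] at h4
  have h6 : (a : ℂ) + b * Complex.I = 0 := by
    rcases mul_eq_zero.mp h4 with h | h
    · exact h
    · exact absurd h hnzC
  apply hx0
  rw [hxz, h6, zero_smul]

lemma dS_neg_one {Φ : Sys} {w : W} {z : V} (hz : z ≠ 0) (hz0 : A Φ w z = 0) :
    dS (phi Φ w) (-1) z = - dS (phi Φ w) 1 z := by
  have hnz : 0 < ‖z‖ ^ 2 := by positivity
  have hnzC : ((‖z‖ ^ 2 : ℝ) : ℂ) ≠ 0 := by exact_mod_cast hnz.ne'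
  have hMz : (phi Φ w).mulVec (WithLp.ofLp z) = 0 := (mulVec_eq_zero_iff Φ w z).mp hz0
  set M := phi Φ w with hM
  set u := cj z with hu
  set n : ℂ := ((‖z‖ ^ 2 : ℝ) : ℂ) with hn
  -- S_{-1} = S_1 (1 - 2 z uᵀ / n)
  have key : M + (-1 : ℂ) • vecMulVec u u = (M + (1 : ℂ) • vecMulVec u u) *
      (1 + replicateCol Unit ((-2 / n) • WithLp.ofLp z) * replicateRow Unit u) := by
    have h1 : replicateCol Unit ((-2 / n) • WithLp.ofLp z) * replicateRow Unit u
        = vecMulVec ((-2 / n) • WithLp.ofLp z) u := by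
      rw [vecMulVec_eq Unit]
    rw [h1, Matrix.mul_add, Matrix.mul_one, Matrix.mul_vecMulVec]
    have h2 : (M + (1 : ℂ) • vecMulVec u u).mulVec ((-2 / n) • WithLp.ofLp z) = (-2 : ℂ) • u := by
      rw [Matrix.mulVec_smul, Matrix.add_mulVec, hMz, zero_add, one_smul]
      have h3 : (vecMulVec u u).mulVec (WithLp.ofLp z) = n • u := by
        funext i
        have h4 : ∑ j, u j * z j = n := cj_dot z
        simp only [Matrix.mulVec, vecMulVec_apply, dotProduct, Pi.smul_apply, smul_eq_mul]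
        rw [← h4, Finset.sum_mul]
        refine Finset.sum_congr rfl fun j _ => ?_
        ring
      rw [h3, smul_smul]
      congr 1
      field_simp
    rw [h2]
    ext i j
    simp only [Matrix.add_apply, Matrix.smul_apply, vecMulVec_apply, Pi.smul_apply, smul_eq_mul]
    ring
  unfold dS
  rw [← hu, key, Matrix.det_mul, Matrix.det_one_add_replicateCol_mul_replicateRow,
    dotProduct_smul]
  have h5 : dotProduct u (WithLp.ofLp z) = n := cj_dot z
  rw [h5, smul_eq_mul]
  field_simp
  ring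

theorem exists_kappa {Φ : Sys} (hS : Symm Φ) : ∃ κ : W × V → ℂ, Continuous κ ∧
    (∀ w z, κ (-w, z) = κ (w, z)) ∧ (∀ w z, κ (w, J z) = - κ (w, z)) ∧ (∀ w, κ (w, 0) = 0) ∧
    (∀ w ∈ D1 Φ, ∀ z, z ≠ 0 → A Φ w z = 0 → κ (w, z) ≠ 0) := by
  refine ⟨kap Φ, continuous_kap Φ, kap_neg Φ, kap_J Φ, kap_zero Φ, ?_⟩
  intro w hw z hz hz0 h
  have hd := det_ne_zero_of_D1 hS hw hz hz0
  unfold kap at h
  simp only [dS_neg_one hz hz0] at h
  have h1 := (map_eq_zero (starRingEnd ℂ)).mp h
  apply hd
  have h2 : (2 : ℂ) * dS (phi Φ w) 1 z = 0 := by linear_combination h1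
  rcases mul_eq_zero.mp h2 with h | h
  · exact absurd h two_ne_zero
  · exact h

end

end Pool.Agent.Flip
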