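import Mathlib

set_option autoImplicit false

/-!
An explicit polynomial map from C^5 to R^7 which is even, changes sign under multiplication
by i, and vanishes only at the origin.
-/

namespace Pool.Agent.Lib97.Flip

/-- Real algebra of the main case `z4 ≠ 0`, after multiplying by `conj z1 * z2` and
`conj z3 * z4`. -/
lemma core_sign (rho s1 s3 e N D A1 B1 A3 B4 : ℝ) (hB4 : 0 < B4) (hA1 : 0 ≤ A1) (hB1 : 0 ≤ B1)
    (hA3 : 0 ≤ A3) (hN : 0 < N) (he : e ≠ 0)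
    (hAB1 : rho ^ 2 + s1 ^ 2 = A1 * B1) (hAB3 : rho ^ 2 + s3 ^ 2 = A3 * B4)
    (R1 : rho * (N * A1 + (D + e ^ 2) * B1 + 4 * A1 * B1) + e * B1 * s1 * s3 = 0)
    (I1 : s1 * (N * A1 - (D + e ^ 2) * B1) + e * B1 * s3 * rho = 0)
    (R2 : -(rho * (N * A3 - D * B4 + 4 * A3 * B4)) + e * B4 * s1 * s3 = 0)
    (I2 : s3 * (N * A3 + D * B4) - e * B4 * s1 * rho = 0) :
    rho = 0 ∧ s1 * s3 = 0 := by
  have hrho2 : 0 ≤ rho ^ 2 := sq_nonneg _
  have hs12 : 0 ≤ s1 ^ 2 := sq_nonneg _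
  have hs32 : 0 ≤ s3 ^ 2 := sq_nonneg _
  -- multiplied versions
  have E1 : rho ^ 2 * (N * A1 + (D + e ^ 2) * B1 + 4 * (A1 * B1))
      + B1 * (e * s1 * s3 * rho) = 0 := by linear_combination rho * R1
  have E2 : s1 ^ 2 * (N * A1 - (D + e ^ 2) * B1) + B1 * (e * s1 * s3 * rho) = 0 := by
    linear_combination s1 * I1
  have E3 : rho ^ 2 * (N * A3 - D * B4 + 4 * (A3 * B4)) - B4 * (e * s1 * s3 * rho) = 0 := by
    linear_combination (-rho) * R2
  have E4 : s3 ^ 2 * (N * A3 + D * B4) - B4 * (e * s1 * s3 * rho) = 0 := by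
    linear_combination s3 * I2
  by_cases hr : rho = 0
  · refine ⟨hr, ?_⟩
    subst hr
    have : e * B4 * (s1 * s3) = 0 := by linear_combination R2
    rcases mul_eq_zero.mp this with h | h
    · rcases mul_eq_zero.mp h with h | h
      · exact absurd h he
      · exact absurd h hB4.ne'
    · exact h
  · exfalso
    have hr2 : 0 < rho ^ 2 := by positivity
    have hA1B1 : 0 < A1 * B1 := by linarith
    have hA1' : 0 < A1 := by
      rcases hA1.lt_or_eq with h | h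
      · exact h
      · rw [← h] at hA1B1; simp at hA1B1
    have hB1' : 0 < B1 := by
      rcases hB1.lt_or_eq with h | h
      · exact h
      · rw [← h] at hA1B1; simp at hA1B1
    have hA3B4 : 0 < A3 * B4 := by linarith
    have hA3' : 0 < A3 := by
      rcases hA3.lt_or_eq with h | h
      · exact h
      · rw [← h] at hA3B4; simp at hA3B4
    have hNA1 : 0 < N * A1 := by positivity
    have hNA3 : 0 < N * A3 := by positivity
    rcases lt_trichotomy (e * s1 * s3 * rho) 0 with ht | ht | ht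
    · -- t < 0
      have hs3 : s3 ≠ 0 := by
        intro h; rw [h] at ht; simp at ht
      have hs3' : 0 < s3 ^ 2 := by positivity
      have hBt : B4 * (e * s1 * s3 * rho) < 0 := mul_neg_of_pos_of_neg hB4 ht
      have h1 : N * A3 - D * B4 + 4 * (A3 * B4) < 0 := by
        by_contra hcon
        push Not at hcon
        have := mul_nonneg hr2.le hcon
        linarith
      have h2 : 0 < N * A3 + D * B4 := by linarith
      have := mul_pos hs3' h2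
      linarith
    · -- t = 0
      rw [ht] at E1 E3
      have h1 : N * A1 + (D + e ^ 2) * B1 + 4 * (A1 * B1) = 0 := by
        have : rho ^ 2 * (N * A1 + (D + e ^ 2) * B1 + 4 * (A1 * B1)) = 0 := by linarith
        rcases mul_eq_zero.mp this with h | h
        · exact absurd h hr2.ne'
        · exact h
      have h2 : N * A3 - D * B4 + 4 * (A3 * B4) = 0 := by
        have : rho ^ 2 * (N * A3 - D * B4 + 4 * (A3 * B4)) = 0 := by linarith
        rcases mul_eq_zero.mp this with h | h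
        · exact absurd h hr2.ne'
        · exact h
      have hD : 0 < D := by
        have : 0 < D * B4 := by linarith
        exact (pos_iff_pos_of_mul_pos this).mpr hB4
      have : 0 < (D + e ^ 2) * B1 := by positivity
      linarith
    · -- t > 0
      have hs1 : s1 ≠ 0 := by
        intro h; rw [h] at ht; simp at ht
      have hs1' : 0 < s1 ^ 2 := by positivity
      have hBt : 0 < B1 * (e * s1 * s3 * rho) := mul_pos hB1' ht
      have h1 : N * A1 + (D + e ^ 2) * B1 + 4 * (A1 * B1) < 0 := by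
        by_contra hcon
        push Not at hcon
        have := mul_nonneg hr2.le hcon
        linarith
      have h2 : 0 < N * A1 - (D + e ^ 2) * B1 := by linarith
      have := mul_pos hs1' h2
      linarith

lemma sumsq {x y : ℝ} (h : x ^ 2 + y ^ 2 = 0) : x = 0 ∧ y = 0 := by
  constructor
  · nlinarith [sq_nonneg x, sq_nonneg y]
  · nlinarith [sq_nonneg x, sq_nonneg y]

/-- The case `z4 = 0` (so `z5 = 0`, `e = 0`, `z3 z4 = 0`). -/
lemma case_zero (a1 b1 a2 b2 a3 b3 N D : ℝ)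
    (hN : N = a1 ^ 2 + b1 ^ 2 + a2 ^ 2 + b2 ^ 2 + (a3 ^ 2 + b3 ^ 2))
    (hD : D = a3 ^ 2 + b3 ^ 2 - (a1 ^ 2 + b1 ^ 2 + a2 ^ 2 + b2 ^ 2))
    (F0 : a1 * a2 - b1 * b2 = 0)
    (F1 : N * (a1 ^ 2 - b1 ^ 2) + D * (a2 ^ 2 - b2 ^ 2) = 0)
    (F1' : N * (2 * a1 * b1) - D * (2 * a2 * b2) = 0)
    (F2 : N * (a3 ^ 2 - b3 ^ 2) = 0)
    (F2' : N * (2 * a3 * b3) = 0) :
    (a1 = 0 ∧ b1 = 0) ∧ (a2 = 0 ∧ b2 = 0) ∧ (a3 = 0 ∧ b3 = 0) := by
  have sa1 := sq_nonneg a1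
  have sb1 := sq_nonneg b1
  have sa2 := sq_nonneg a2
  have sb2 := sq_nonneg b2
  have sa3 := sq_nonneg a3
  have sb3 := sq_nonneg b3
  have hN0 : 0 ≤ N := by rw [hN]; positivity
  rcases hN0.lt_or_eq with hN1 | hN1
  · have e1 : a3 ^ 2 - b3 ^ 2 = 0 := by
      rcases mul_eq_zero.mp F2 with h | h
      · exact absurd h hN1.ne'
      · exact h
    have e2 : 2 * a3 * b3 = 0 := by
      rcases mul_eq_zero.mp F2' with h | h
      · exact absurd h hN1.ne'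
      · exact h
    have e3 : (a3 ^ 2 + b3 ^ 2) ^ 2 = 0 := by
      linear_combination (a3 ^ 2 - b3 ^ 2) * e1 + 2 * a3 * b3 * e2
    have e4 : a3 ^ 2 + b3 ^ 2 = 0 := by
      exact pow_eq_zero_iff (two_ne_zero) |>.mp e3
    obtain ⟨h3, h3'⟩ := sumsq e4
    have hND : D = -N := by rw [hN, hD, e4]; ring
    have g1 : (a1 ^ 2 - b1 ^ 2) - (a2 ^ 2 - b2 ^ 2) = 0 := by
      have : N * ((a1 ^ 2 - b1 ^ 2) - (a2 ^ 2 - b2 ^ 2)) = 0 := by
        rw [hND] at F1; linear_combination F1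
      rcases mul_eq_zero.mp this with h | h
      · exact absurd h hN1.ne'
      · exact h
    have g2 : 2 * a1 * b1 + 2 * a2 * b2 = 0 := by
      have : N * (2 * a1 * b1 + 2 * a2 * b2) = 0 := by
        rw [hND] at F1'; linear_combination F1'
      rcases mul_eq_zero.mp this with h | h
      · exact absurd h hN1.ne'
      · exact h
    -- (z1 z2)^2 = |z2|^4
    have g3 : (a2 ^ 2 + b2 ^ 2) ^ 2 + (a1 * b2 + b1 * a2) ^ 2 = 0 := by
      linear_combination (-(a2 ^ 2 - b2 ^ 2)) * g1 + 2 * a2 * b2 * g2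
        + (a1 * a2 - b1 * b2) * F0
    obtain ⟨g4, -⟩ := sumsq g3
    obtain ⟨h2, h2'⟩ := sumsq g4
    rw [h2, h2'] at g1 g2
    have g5 : (a1 ^ 2 + b1 ^ 2) ^ 2 = 0 := by
      linear_combination (a1 ^ 2 - b1 ^ 2) * g1 + 2 * a1 * b1 * g2
    have g6 : a1 ^ 2 + b1 ^ 2 = 0 := pow_eq_zero_iff (two_ne_zero) |>.mp g5
    exact ⟨sumsq g6, ⟨h2, h2'⟩, ⟨h3, h3'⟩⟩
  · refine ⟨sumsq ?_, sumsq ?_, sumsq ?_⟩ <;> linarith

/-- The real system has only the zero solution. -/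
lemma real_zero (a1 b1 a2 b2 a3 b3 a4 b4 a5 b5 N D e q r s1 s3 : ℝ)
    (hN : N = a1 ^ 2 + b1 ^ 2 + a2 ^ 2 + b2 ^ 2 + (a3 ^ 2 + b3 ^ 2 + a4 ^ 2 + b4 ^ 2))
    (hD : D = a3 ^ 2 + b3 ^ 2 + a4 ^ 2 + b4 ^ 2 - (a1 ^ 2 + b1 ^ 2 + a2 ^ 2 + b2 ^ 2))
    (he : e = a4 * b5 + b4 * a5)
    (hr : r = a1 * a2 - b1 * b2) (hq : q = a3 * a4 - b3 * b4)
    (hs1 : s1 = a1 * b2 + b1 * a2) (hs3 : s3 = a3 * b4 + b3 * a4)
    (F0 : r + q = 0)
    (F1 : N * (a1 ^ 2 - b1 ^ 2) + D * (a2 ^ 2 - b2 ^ 2) - 4 * q * (a1 * a2 + b1 * b2)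
      + (a2 ^ 2 - b2 ^ 2) * e ^ 2 + 2 * a2 * b2 * (e * s3) = 0)
    (F1' : N * (2 * a1 * b1) - D * (2 * a2 * b2) - 4 * q * (b1 * a2 - a1 * b2)
      + (a2 ^ 2 - b2 ^ 2) * (e * s3) - 2 * a2 * b2 * e ^ 2 = 0)
    (F2 : N * (a3 ^ 2 - b3 ^ 2) - D * (a4 ^ 2 - b4 ^ 2) - 4 * r * (a3 * a4 + b3 * b4)
      + 2 * a4 * b4 * (e * s1) = 0)
    (F2' : N * (2 * a3 * b3) + D * (2 * a4 * b4) - 4 * r * (b3 * a4 - a3 * b4)
      + (a4 ^ 2 - b4 ^ 2) * (e * s1) = 0)
    (F3 : a5 ^ 2 - b5 ^ 2 + (a4 ^ 2 - b4 ^ 2) = 0)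
    (F3' : 2 * a5 * b5 - 2 * a4 * b4 = 0) :
    (a1 = 0 ∧ b1 = 0) ∧ (a2 = 0 ∧ b2 = 0) ∧ (a3 = 0 ∧ b3 = 0) ∧ (a4 = 0 ∧ b4 = 0) ∧
      (a5 = 0 ∧ b5 = 0) := by
  have hqr : q = -r := by linarith
  have sa1 := sq_nonneg a1
  have sb1 := sq_nonneg b1
  have sa2 := sq_nonneg a2
  have sb2 := sq_nonneg b2
  have sa3 := sq_nonneg a3
  have sb3 := sq_nonneg b3
  have sa4 := sq_nonneg a4
  have sb4 := sq_nonneg b4
  -- z5 = ± i conj z4
  have h5 : a5 ^ 2 + b5 ^ 2 = a4 ^ 2 + b4 ^ 2 := by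
    have h1 : (a5 ^ 2 + b5 ^ 2) ^ 2 = (a4 ^ 2 + b4 ^ 2) ^ 2 := by
      linear_combination (a5 ^ 2 - b5 ^ 2 - (a4 ^ 2 - b4 ^ 2)) * F3
        + (2 * a5 * b5 + 2 * a4 * b4) * F3'
    exact (sq_eq_sq₀ (by positivity) (by positivity)).mp h1
  have he2 : e ^ 2 = (a4 ^ 2 + b4 ^ 2) ^ 2 := by
    rw [he]
    linear_combination (1 / 2) * (a4 ^ 2 + b4 ^ 2) * h5 - (1 / 2) * (a4 ^ 2 - b4 ^ 2) * F3
      + a4 * b4 * F3'
  rcases (show 0 ≤ a4 ^ 2 + b4 ^ 2 by positivity).lt_or_eq with hB4 | hB4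
  · -- z4 ≠ 0
    exfalso
    have hN0 : 0 < N := by linarith
    have he0 : e ≠ 0 := by
      intro h
      rw [h] at he2
      have : 0 < (a4 ^ 2 + b4 ^ 2) ^ 2 := by positivity
      norm_num at he2
      linarith
    have he2' : 0 < e ^ 2 := by positivity
    have AB1 : r ^ 2 + s1 ^ 2 = (a1 ^ 2 + b1 ^ 2) * (a2 ^ 2 + b2 ^ 2) := by rw [hr, hs1]; ring
    have AB3 : q ^ 2 + s3 ^ 2 = (a3 ^ 2 + b3 ^ 2) * (a4 ^ 2 + b4 ^ 2) := by rw [hq, hs3]; ring
    have R1 : r * (N * (a1 ^ 2 + b1 ^ 2) + (D + e ^ 2) * (a2 ^ 2 + b2 ^ 2)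
        + 4 * (a1 ^ 2 + b1 ^ 2) * (a2 ^ 2 + b2 ^ 2)) + e * (a2 ^ 2 + b2 ^ 2) * s1 * s3 = 0 := by
      rw [hqr, hr] at F1 F1'
      rw [hr, hs1]
      linear_combination (a1 * a2 + b1 * b2) * F1 - (a1 * b2 - b1 * a2) * F1'
    have I1 : s1 * (N * (a1 ^ 2 + b1 ^ 2) - (D + e ^ 2) * (a2 ^ 2 + b2 ^ 2))
        + e * (a2 ^ 2 + b2 ^ 2) * s3 * r = 0 := by
      rw [hqr, hr] at F1 F1'
      rw [hr, hs1]
      linear_combination (a1 * b2 - b1 * a2) * F1 + (a1 * a2 + b1 * b2) * F1'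
    have R2 : -(r * (N * (a3 ^ 2 + b3 ^ 2) - D * (a4 ^ 2 + b4 ^ 2)
        + 4 * (a3 ^ 2 + b3 ^ 2) * (a4 ^ 2 + b4 ^ 2))) + e * (a4 ^ 2 + b4 ^ 2) * s1 * s3 = 0 := by
      have hrq : r = -q := by linarith
      rw [hrq, hq] at F2 F2'
      rw [hrq, hq, hs3]
      linear_combination (a3 * a4 + b3 * b4) * F2 - (a3 * b4 - b3 * a4) * F2'
    have I2 : s3 * (N * (a3 ^ 2 + b3 ^ 2) + D * (a4 ^ 2 + b4 ^ 2))
        - e * (a4 ^ 2 + b4 ^ 2) * s1 * r = 0 := by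
      have hrq : r = -q := by linarith
      rw [hrq, hq] at F2 F2'
      rw [hrq, hq, hs3]
      linear_combination (a3 * b4 - b3 * a4) * F2 + (a3 * a4 + b3 * b4) * F2'
    obtain ⟨hrho, hss⟩ := core_sign r s1 s3 e N D (a1 ^ 2 + b1 ^ 2) (a2 ^ 2 + b2 ^ 2)
      (a3 ^ 2 + b3 ^ 2) (a4 ^ 2 + b4 ^ 2) hB4 (by positivity) (by positivity) (by positivity)
      hN0 he0 AB1 (by rw [← AB3, hqr]; ring) R1 I1 R2 I2
    have hq0 : q = 0 := by rw [hqr, hrho]; ring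
    rw [hrho] at AB1 F2 F2' I2
    rw [hq0] at AB3 F1 F1'
    by_cases h3 : s3 = 0
    · rw [h3] at AB3 F1 F1'
      have hA3 : a3 ^ 2 + b3 ^ 2 = 0 := by
        have : (a3 ^ 2 + b3 ^ 2) * (a4 ^ 2 + b4 ^ 2) = 0 := by rw [← AB3]; ring
        rcases mul_eq_zero.mp this with h | h
        · exact h
        · exact absurd h hB4.ne'
      obtain ⟨k3, k3'⟩ := sumsq hA3
      rw [k3, k3'] at F2 F2'
      have g1 : (D ^ 2 + (e * s1) ^ 2) * (a4 ^ 2 + b4 ^ 2) ^ 2 = 0 := by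
        linear_combination (-(D * (a4 ^ 2 - b4 ^ 2)) + 2 * a4 * b4 * (e * s1)) * F2
          + (D * (2 * a4 * b4) + (a4 ^ 2 - b4 ^ 2) * (e * s1)) * F2'
      have g2 : D ^ 2 + (e * s1) ^ 2 = 0 := by
        rcases mul_eq_zero.mp g1 with h | h
        · exact h
        · exact absurd h (by positivity)
      obtain ⟨hD0, hes⟩ := sumsq g2
      have hs10 : s1 = 0 := by
        rcases mul_eq_zero.mp hes with h | h
        · exact absurd h he0
        · exact h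
      rw [hs10] at AB1
      rw [hD0] at F1 F1'
      have g3 : (N * (a1 ^ 2 + b1 ^ 2)) ^ 2 = (e ^ 2 * (a2 ^ 2 + b2 ^ 2)) ^ 2 := by
        linear_combination (N * (a1 ^ 2 - b1 ^ 2) - (a2 ^ 2 - b2 ^ 2) * e ^ 2) * F1
          + (N * (2 * a1 * b1) + 2 * a2 * b2 * e ^ 2) * F1'
      have g4 : N * (a1 ^ 2 + b1 ^ 2) = e ^ 2 * (a2 ^ 2 + b2 ^ 2) :=
        (sq_eq_sq₀ (by positivity) (by positivity)).mp g3
      have g5 : (a1 ^ 2 + b1 ^ 2) * (a2 ^ 2 + b2 ^ 2) = 0 := by rw [← AB1]; ring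
      have g6 : a1 ^ 2 + b1 ^ 2 = 0 ∧ a2 ^ 2 + b2 ^ 2 = 0 := by
        rcases mul_eq_zero.mp g5 with h | h
        · refine ⟨h, ?_⟩
          rw [h, mul_zero] at g4
          rcases mul_eq_zero.mp g4.symm with h' | h'
          · exact absurd h' he2'.ne'
          · exact h'
        · refine ⟨?_, h⟩
          rw [h, mul_zero] at g4
          rcases mul_eq_zero.mp g4 with h' | h'
          · exact absurd h' hN0.ne'
          · exact h'
      linarith [g6.1, g6.2]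
    · have h1 : s1 = 0 := by
        rcases mul_eq_zero.mp hss with h | h
        · exact h
        · exact absurd h h3
      rw [h1] at AB1
      have hNA : N * (a3 ^ 2 + b3 ^ 2) + D * (a4 ^ 2 + b4 ^ 2) = 0 := by
        have : s3 * (N * (a3 ^ 2 + b3 ^ 2) + D * (a4 ^ 2 + b4 ^ 2)) = 0 := by
          linear_combination I2
        rcases mul_eq_zero.mp this with h | h
        · exact absurd h h3
        · exact h
      have hA3 : 0 < a3 ^ 2 + b3 ^ 2 := by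
        rcases (show 0 ≤ a3 ^ 2 + b3 ^ 2 by positivity).lt_or_eq with h | h
        · exact h
        · rw [← h, zero_mul] at AB3
          have : s3 ^ 2 = 0 := by linear_combination AB3
          exact absurd (pow_eq_zero_iff two_ne_zero |>.mp this) h3
      have hDneg : D < 0 := by
        by_contra hcon
        push Not at hcon
        have t1 : 0 < N * (a3 ^ 2 + b3 ^ 2) := by positivity
        have t2 : 0 ≤ D * (a4 ^ 2 + b4 ^ 2) := by positivity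
        linarith
      have g5 : (a1 ^ 2 + b1 ^ 2) * (a2 ^ 2 + b2 ^ 2) = 0 := by rw [← AB1]; ring
      have g6 : a1 ^ 2 + b1 ^ 2 = 0 ∧ a2 ^ 2 + b2 ^ 2 = 0 := by
        rcases mul_eq_zero.mp g5 with h | h
        · refine ⟨h, ?_⟩
          obtain ⟨k1, k1'⟩ := sumsq h
          rw [k1, k1'] at F1 F1'
          have : (a2 ^ 2 + b2 ^ 2) ^ 2 * ((D + e ^ 2) ^ 2 + (e * s3) ^ 2) = 0 := by
            linear_combination ((a2 ^ 2 - b2 ^ 2) * (D + e ^ 2) + 2 * a2 * b2 * (e * s3)) * F1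
              + ((a2 ^ 2 - b2 ^ 2) * (e * s3) - 2 * a2 * b2 * (D + e ^ 2)) * F1'
          rcases mul_eq_zero.mp this with h' | h'
          · exact pow_eq_zero_iff two_ne_zero |>.mp h'
          · obtain ⟨-, h''⟩ := sumsq h'
            rcases mul_eq_zero.mp h'' with h'' | h''
            · exact absurd h'' he0
            · exact absurd h'' h3
        · refine ⟨?_, h⟩
          obtain ⟨k2, k2'⟩ := sumsq h
          rw [k2, k2'] at F1 F1'
          have : (N * (a1 ^ 2 + b1 ^ 2)) ^ 2 = 0 := by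
            linear_combination (N * (a1 ^ 2 - b1 ^ 2)) * F1 + (N * (2 * a1 * b1)) * F1'
          have := pow_eq_zero_iff two_ne_zero |>.mp this
          rcases mul_eq_zero.mp this with h' | h'
          · exact absurd h' hN0.ne'
          · exact h'
      linarith [g6.1, g6.2]
  · -- z4 = 0
    obtain ⟨h4, h4'⟩ := sumsq hB4.symm
    obtain ⟨h5', h5''⟩ := sumsq (by rw [h5]; exact hB4.symm : a5 ^ 2 + b5 ^ 2 = 0)
    subst h4 h4' h5' h5''
    have he' : e = 0 := by rw [he]; ring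
    have hq' : q = 0 := by rw [hq]; ring
    have hr' : r = 0 := by linarith
    subst he' hq' hr'
    obtain ⟨h1, h2, h3⟩ := case_zero a1 b1 a2 b2 a3 b3 N D (by rw [hN]; ring) (by rw [hD]; ring)
      hr.symm (by linear_combination F1) (by linear_combination F1') (by linear_combination F2)
      (by linear_combination F2')
    exact ⟨h1, h2, h3, ⟨rfl, rfl⟩, ⟨rfl, rfl⟩⟩

/-- `|z1|^2+|z2|^2+|z3|^2+|z4|^2`. -/
noncomputable def nn (z : Fin 5 → ℂ) : ℝ :=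
  (z 0).re ^ 2 + (z 0).im ^ 2 + (z 1).re ^ 2 + (z 1).im ^ 2
    + ((z 2).re ^ 2 + (z 2).im ^ 2 + (z 3).re ^ 2 + (z 3).im ^ 2)

/-- `|z3|^2+|z4|^2-|z1|^2-|z2|^2`. -/
noncomputable def dd (z : Fin 5 → ℂ) : ℝ :=
  (z 2).re ^ 2 + (z 2).im ^ 2 + (z 3).re ^ 2 + (z 3).im ^ 2
    - ((z 0).re ^ 2 + (z 0).im ^ 2 + (z 1).re ^ 2 + (z 1).im ^ 2)

/-- `Im (z4 z5)`. -/
noncomputable def ee (z : Fin 5 → ℂ) : ℝ := (z 3).re * (z 4).im + (z 3).im * (z 4).re

/-- `Re (z1 z2)`. -/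
noncomputable def rr (z : Fin 5 → ℂ) : ℝ := (z 0).re * (z 1).re - (z 0).im * (z 1).im

/-- `Re (z3 z4)`. -/
noncomputable def qq (z : Fin 5 → ℂ) : ℝ := (z 2).re * (z 3).re - (z 2).im * (z 3).im

/-- `Im (z1 z2)`. -/
noncomputable def ss (z : Fin 5 → ℂ) : ℝ := (z 0).re * (z 1).im + (z 0).im * (z 1).re

/-- `Im (z3 z4)`. -/
noncomputable def tt (z : Fin 5 → ℂ) : ℝ := (z 2).re * (z 3).im + (z 2).im * (z 3).re

/-- The seven real components. -/
noncomputable def flip57 (z : Fin 5 → ℂ) : Fin 7 → ℝ :=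
  ![rr z + qq z,
    nn z * ((z 0).re ^ 2 - (z 0).im ^ 2) + dd z * ((z 1).re ^ 2 - (z 1).im ^ 2)
      - 4 * qq z * ((z 0).re * (z 1).re + (z 0).im * (z 1).im)
      + ((z 1).re ^ 2 - (z 1).im ^ 2) * ee z ^ 2 + 2 * (z 1).re * (z 1).im * (ee z * tt z),
    nn z * (2 * (z 0).re * (z 0).im) - dd z * (2 * (z 1).re * (z 1).im)
      - 4 * qq z * ((z 0).im * (z 1).re - (z 0).re * (z 1).im)
      + ((z 1).re ^ 2 - (z 1).im ^ 2) * (ee z * tt z) - 2 * (z 1).re * (z 1).im * ee z ^ 2,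
    nn z * ((z 2).re ^ 2 - (z 2).im ^ 2) - dd z * ((z 3).re ^ 2 - (z 3).im ^ 2)
      - 4 * rr z * ((z 2).re * (z 3).re + (z 2).im * (z 3).im)
      + 2 * (z 3).re * (z 3).im * (ee z * ss z),
    nn z * (2 * (z 2).re * (z 2).im) + dd z * (2 * (z 3).re * (z 3).im)
      - 4 * rr z * ((z 2).im * (z 3).re - (z 2).re * (z 3).im)
      + ((z 3).re ^ 2 - (z 3).im ^ 2) * (ee z * ss z),
    (z 4).re ^ 2 - (z 4).im ^ 2 + ((z 3).re ^ 2 - (z 3).im ^ 2),
    2 * (z 4).re * (z 4).im - 2 * (z 3).re * (z 3).im]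

lemma continuous_flip57 : Continuous flip57 := by
  unfold flip57 nn dd ee rr qq ss tt
  refine continuous_pi fun j => ?_
  fin_cases j <;> simp <;> fun_prop

lemma flip57_I (z : Fin 5 → ℂ) : flip57 (Complex.I • z) = - flip57 z := by
  funext j
  fin_cases j <;> simp [flip57, nn, dd, ee, rr, qq, ss, tt] <;> ring

lemma flip57_neg (z : Fin 5 → ℂ) : flip57 (-z) = flip57 z := by
  funext j
  fin_cases j <;> simp [flip57, nn, dd, ee, rr, qq, ss, tt]

lemma flip57_zero {z : Fin 5 → ℂ} (h : flip57 z = 0) : z = 0 := by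
  have h0 := congrFun h 0
  have h1 := congrFun h 1
  have h2 := congrFun h 2
  have h3 := congrFun h 3
  have h4 := congrFun h 4
  have h5 := congrFun h 5
  have h6 := congrFun h 6
  have key := real_zero (z 0).re (z 0).im (z 1).re (z 1).im (z 2).re (z 2).im (z 3).re (z 3).im
    (z 4).re (z 4).im (nn z) (dd z) (ee z) (qq z) (rr z) (ss z) (tt z) rfl rfl rfl rfl rfl rfl rfl
    h0 h1 h2 h3 h4 h5 h6
  obtain ⟨⟨a1, b1⟩, ⟨a2, b2⟩, ⟨a3, b3⟩, ⟨a4, b4⟩, ⟨a5, b5⟩⟩ := key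
  funext j
  fin_cases j <;> apply Complex.ext <;> assumption

/-- There is a continuous map from C^5 to R^7 which is even, flips sign under multiplication by
`i`, and is nonzero away from the origin. -/
theorem exists_flip57 : ∃ f : (Fin 5 → ℂ) → (Fin 7 → ℝ), Continuous f ∧
    (∀ z, f (-z) = f z) ∧ (∀ z, f (Complex.I • z) = - f z) ∧ ∀ z, z ≠ 0 → f z ≠ 0 :=
  ⟨flip57, continuous_flip57, flip57_neg, flip57_I, fun _ hz h => hz (flip57_zero h)⟩

end Pool.Agent.Lib97.Flip
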