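import Mathlib
import Pool.Agent.Lib_helper89.Flip.Defs
import Pool.Agent.Lib_helper97.Flip.Exist

set_option autoImplicit false

/-!
Reduction of the frozen statement S13874 to the non-existence of a zero-free system of seven
complex symmetric 5 x 5 matrices.
-/

namespace Pool.Agent.Lib97.Flip

open Pool.Agent.Flip

/-- The real symmetric bilinear form of a quadratic form. -/
noncomputable def assocB (Q : QuadraticForm ℝ (Fin 5 → ℂ)) :
    (Fin 5 → ℂ) →ₗ[ℝ] (Fin 5 → ℂ) →ₗ[ℝ] ℝ := QuadraticMap.associated Q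

lemma assocB_self (Q : QuadraticForm ℝ (Fin 5 → ℂ)) (x : Fin 5 → ℂ) : assocB Q x x = Q x :=
  QuadraticMap.associated_eq_self_apply ℝ Q x

lemma assocB_symm (Q : QuadraticForm ℝ (Fin 5 → ℂ)) (x y : Fin 5 → ℂ) :
    assocB Q x y = assocB Q y x := by
  simp only [assocB, QuadraticMap.associated_apply]
  rw [add_comm x y]; ring_nf

lemma assocB_I (Q : QuadraticForm ℝ (Fin 5 → ℂ)) (hQ : ∀ z, Q (Complex.I • z) = - Q z)
    (x y : Fin 5 → ℂ) : assocB Q (Complex.I • x) (Complex.I • y) = - assocB Q x y := by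
  simp only [assocB, QuadraticMap.associated_apply]
  rw [← smul_add, hQ, hQ, hQ]
  rw [← smul_neg]
  congr 1
  ring

lemma assocB_I' (Q : QuadraticForm ℝ (Fin 5 → ℂ)) (hQ : ∀ z, Q (Complex.I • z) = - Q z)
    (x y : Fin 5 → ℂ) : assocB Q (Complex.I • x) y = assocB Q x (Complex.I • y) := by
  have h := assocB_I Q hQ x (Complex.I • y)
  rw [smul_smul, Complex.I_mul_I, neg_one_smul, map_neg] at h
  linarith

/-- The complex bilinear form whose real part is the polar form. -/
noncomputable def cplxB (Q : QuadraticForm ℝ (Fin 5 → ℂ))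
    (hQ : ∀ z, Q (Complex.I • z) = - Q z) :
    (Fin 5 → ℂ) →ₗ[ℂ] (Fin 5 → ℂ) →ₗ[ℂ] ℂ :=
  LinearMap.mk₂ ℂ (fun x y => (⟨assocB Q x y, - assocB Q (Complex.I • x) y⟩ : ℂ))
    (by
      intro x x' y
      apply Complex.ext
      · simp
      · simp only [smul_add, map_add, LinearMap.add_apply, Complex.add_im]; ring)
    (by
      intro c x y
      have hc : c • x = c.re • x + c.im • (Complex.I • x) := by
        conv_lhs => rw [← Complex.re_add_im c, add_smul, mul_smul]
        rfl
      have hc' : Complex.I • (c • x) = c.re • (Complex.I • x) - c.im • x := by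
        rw [hc, smul_add, smul_comm (Complex.I) c.im, smul_smul, Complex.I_mul_I,
          smul_comm (Complex.I) c.re]
        simp [sub_eq_add_neg]
      apply Complex.ext
      · rw [hc']
        simp only [hc, map_add, map_smul, LinearMap.add_apply, LinearMap.smul_apply, smul_eq_mul,
          Complex.mul_re]
        ring
      · rw [hc']
        simp only [map_sub, map_smul, LinearMap.sub_apply, LinearMap.smul_apply, smul_eq_mul,
          Complex.mul_im]
        ring)
    (by
      intro x y y'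
      apply Complex.ext
      · simp
      · simp only [map_add, Complex.add_im]; ring)
    (by
      intro c x y
      have hc : c • y = c.re • y + c.im • (Complex.I • y) := by
        conv_lhs => rw [← Complex.re_add_im c, add_smul, mul_smul]
        rfl
      have h1 : assocB Q x (Complex.I • y) = assocB Q (Complex.I • x) y := (assocB_I' Q hQ x y).symm
      have h2 : assocB Q (Complex.I • x) (Complex.I • y) = - assocB Q x y := assocB_I Q hQ x y
      apply Complex.ext
      · simp only [hc, map_add, map_smul, smul_eq_mul, Complex.mul_re, h1]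
        ring
      · simp only [hc, map_add, map_smul, smul_eq_mul, Complex.mul_im, h2]
        ring)

lemma cplxB_re (Q : QuadraticForm ℝ (Fin 5 → ℂ)) (hQ : ∀ z, Q (Complex.I • z) = - Q z)
    (x : Fin 5 → ℂ) : (cplxB Q hQ x x).re = Q x := by
  simp [cplxB, assocB_self]

lemma cplxB_symm (Q : QuadraticForm ℝ (Fin 5 → ℂ)) (hQ : ∀ z, Q (Complex.I • z) = - Q z)
    (x y : Fin 5 → ℂ) : cplxB Q hQ x y = cplxB Q hQ y x := by
  apply Complex.ext
  · simp only [cplxB, LinearMap.mk₂_apply]
    exact assocB_symm Q x y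
  · simp only [cplxB, LinearMap.mk₂_apply]
    rw [assocB_I' Q hQ, assocB_symm Q x (Complex.I • y)]

/-- L0: a flipping real quadratic form on `ℂ^5` is `Re (zᵀ S z)` for a complex symmetric `S`. -/
lemma exists_matrix (Q : QuadraticForm ℝ (Fin 5 → ℂ)) (hQ : ∀ z, Q (Complex.I • z) = - Q z) :
    ∃ S : Matrix (Fin 5) (Fin 5) ℂ, S.IsSymm ∧ ∀ z, Q z = (dotProduct z (S.mulVec z)).re := by
  refine ⟨LinearMap.toMatrix₂' ℂ (cplxB Q hQ), ?_, ?_⟩
  · ext i j
    simp only [Matrix.transpose_apply, LinearMap.toMatrix₂'_apply]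
    exact cplxB_symm Q hQ _ _
  · intro z
    rw [← cplxB_re Q hQ z]
    congr 1
    rw [← Matrix.toLinearMap₂'_apply', Matrix.toLinearMap₂'_toMatrix']

/-- A zero-free family of at most seven flipping quadratic forms gives a zero-free system. -/
lemma exists_sys (n : ℕ) (hn : n ≤ 7) (Q : Fin n → QuadraticForm ℝ (Fin 5 → ℂ))
    (hQ : ∀ j z, Q j (Complex.I • z) = - Q j z)
    (hz : ∀ z, z ≠ 0 → ∃ j, Q j z ≠ 0) : ∃ Φ : Sys, Symm Φ ∧ ZeroFree Φ := by
  choose S hS hS' using fun j => exists_matrix (Q j) (hQ j)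
  refine ⟨fun j => if h : (j : ℕ) < n then S ⟨j, h⟩ else 0, ?_, ?_⟩
  · intro j
    by_cases h : (j : ℕ) < n
    · simp only [h, dif_pos]; exact hS _
    · simp only [h, dif_neg, not_false_eq_true]; exact Matrix.isSymm_zero
  · intro z hq
    by_contra hne
    have hne' : (WithLp.ofLp z) ≠ 0 := by
      intro h
      apply hne
      ext i
      exact congrFun h i
    obtain ⟨j, hj⟩ := hz _ hne'
    apply hj
    have := congrArg (fun w : W => w (⟨j, lt_of_lt_of_le j.2 hn⟩ : Fin 7)) hq
    simp only [q, B_apply, j.2, dif_pos] at this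
    rw [hS' j]
    exact this

/-- The frozen statement S13874 follows from the non-existence of zero-free systems. -/
theorem not_main_of (H : ∀ Φ : Sys, Symm Φ → ¬ ZeroFree Φ) :
    ¬ (∀ m : ℕ,
      sInf {n : ℕ | ∃ f : (Fin m → ℂ) → (Fin n → ℝ), Continuous f ∧
          (∀ z, f (-z) = f z) ∧ (∀ z, f (Complex.I • z) = - f z) ∧
          ∀ z, z ≠ 0 → f z ≠ 0}
      = sInf {n : ℕ | ∃ q : Fin n → QuadraticForm ℝ (Fin m → ℂ),
          (∀ j z, q j (Complex.I • z) = - q j z) ∧
          ∀ z, z ≠ 0 → ∃ j, q j z ≠ 0}) := by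
  intro hall
  have h5 := hall 5
  set S1 := {n : ℕ | ∃ f : (Fin 5 → ℂ) → (Fin n → ℝ), Continuous f ∧
          (∀ z, f (-z) = f z) ∧ (∀ z, f (Complex.I • z) = - f z) ∧
          ∀ z, z ≠ 0 → f z ≠ 0} with hS1
  set S2 := {n : ℕ | ∃ q : Fin n → QuadraticForm ℝ (Fin 5 → ℂ),
          (∀ j z, q j (Complex.I • z) = - q j z) ∧
          ∀ z, z ≠ 0 → ∃ j, q j z ≠ 0} with hS2
  have h7 : 7 ∈ S1 := exists_flip57
  have hle : sInf S1 ≤ 7 := Nat.sInf_le h7
  have hmem1 : sInf S1 ∈ S1 := Nat.sInf_mem ⟨7, h7⟩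
  have h0 : sInf S1 ≠ 0 := by
    intro h
    rw [h] at hmem1
    obtain ⟨f, -, -, -, hf⟩ := hmem1
    refine hf (fun _ => 1) ?_ (Subsingleton.elim _ _)
    intro h
    have := congrFun h 0
    simp at this
  rcases Set.eq_empty_or_nonempty S2 with he | hne
  · rw [he, Nat.sInf_empty] at h5
    exact h0 h5
  · have hmem2 : sInf S2 ∈ S2 := Nat.sInf_mem hne
    obtain ⟨Q, hQ, hz⟩ := hmem2
    obtain ⟨Φ, hΦ, hΦ'⟩ := exists_sys (sInf S2) (by rw [← h5]; exact hle) Q hQ hz
    exact H Φ hΦ hΦ'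

end Pool.Agent.Lib97.Flip
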