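import Pool.Agent.Lib_helper47.Flip.Base

/-!
# Block EPS-2: the group of order 8
-/

set_option autoImplicit false

namespace Pool.Agent.Flip

open scoped InnerProductSpace ComplexConjugate
open Complex Set Metric Filter Topology Pool.Agent.Deg47

noncomputable section

/-- The group of order 8. -/
abbrev G8 := (rootsOfUnity 4 ℂ) × ℤˣ

instance : Fintype G8 := Fintype.ofFinite _

lemma card_G8 : Fintype.card G8 = 8 := by
  rw [← Nat.card_eq_fintype_card, Nat.card_prod, Complex.card_rootsOfUnity,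
    Nat.card_eq_fintype_card, Fintype.card_units_int]

/-- The complex number of a group element. -/
def zz (g : G8) : ℂ := ((g.1 : ℂˣ) : ℂ)

/-- The sign. -/
def ee8 (g : G8) : ℝ := ((g.2 : ℤ) : ℝ)

/-- The real number `ζ²`. -/
def rr8 (g : G8) : ℝ := (zz g ^ 2).re

lemma zz_pow (g : G8) : zz g ^ 4 = 1 := by
  have h := g.1.2
  rw [_root_.mem_rootsOfUnity] at h
  have := congrArg (fun x : ℂˣ => (x : ℂ)) h
  simpa [zz] using this

lemma ee8_cases (g : G8) : ee8 g = 1 ∨ ee8 g = -1 := by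
  unfold ee8
  rcases Int.units_eq_one_or g.2 with h | h
  · left; rw [h]; norm_num
  · right; rw [h]; norm_num

lemma zz_sq (g : G8) : zz g ^ 2 = 1 ∨ zz g ^ 2 = -1 := by
  have h := zz_pow g
  have h2 : (zz g ^ 2 - 1) * (zz g ^ 2 + 1) = 0 := by linear_combination h
  rcases mul_eq_zero.mp h2 with h | h
  · left; linear_combination h
  · right; linear_combination h

/-- The four cases. -/
lemma zz_cases (g : G8) : zz g = 1 ∨ zz g = -1 ∨ zz g = Complex.I ∨ zz g = -Complex.I := by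
  rcases zz_sq g with h | h
  · have h2 : (zz g - 1) * (zz g + 1) = 0 := by linear_combination h
    rcases mul_eq_zero.mp h2 with h | h
    · left; linear_combination h
    · right; left; linear_combination h
  · have h2 : (zz g - Complex.I) * (zz g + Complex.I) = 0 := by
      linear_combination h - Complex.I_sq
    rcases mul_eq_zero.mp h2 with h | h
    · right; right; left; linear_combination h
    · right; right; right; linear_combination h

lemma rr8_eq (g : G8) : ((rr8 g : ℝ) : ℂ) = zz g ^ 2 := by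
  unfold rr8
  rcases zz_sq g with h | h <;> rw [h] <;> simp

lemma rr8_cases (g : G8) : rr8 g = 1 ∨ rr8 g = -1 := by
  rcases zz_sq g with h | h
  · left; unfold rr8; rw [h]; simp
  · right; unfold rr8; rw [h]; simp

lemma zz_mul (g h : G8) : zz (g * h) = zz g * zz h := by
  simp [zz]

lemma ee8_mul (g h : G8) : ee8 (g * h) = ee8 g * ee8 h := by
  simp [ee8]

lemma rr8_mul (g h : G8) : rr8 (g * h) = rr8 g * rr8 h := by
  have : ((rr8 (g * h) : ℝ) : ℂ) = ((rr8 g * rr8 h : ℝ) : ℂ) := by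
    push_cast
    rw [rr8_eq, rr8_eq, rr8_eq, zz_mul]; ring
  exact_mod_cast this

lemma zz_one : zz 1 = 1 := by simp [zz]
lemma ee8_one : ee8 1 = 1 := by simp [ee8]
lemma rr8_one : rr8 1 = 1 := by simp [rr8, zz_one]

/-- Homomorphisms. -/
def zzH : G8 →* ℂ := ⟨⟨zz, zz_one⟩, zz_mul⟩
def eeH : G8 →* ℝ := ⟨⟨ee8, ee8_one⟩, ee8_mul⟩
def rrH : G8 →* ℝ := ⟨⟨rr8, rr8_one⟩, rr8_mul⟩

/-- The real sign times the complex number, as a homomorphism. -/
def ezH : G8 →* ℂ := ⟨⟨fun g => (ee8 g : ℂ) * zz g, by simp [zz_one, ee8_one]⟩, fun g h => by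
  simp only [ee8_mul, zz_mul, Complex.ofReal_mul]; ring⟩

/-- Diagonal maps of the total space. -/
def diagH : ℝˣ × ℝˣ × ℂˣ →* (EE ≃L[ℝ] EE) where
  toFun t := ((ContinuousLinearEquiv.smulLeft t.1 : W ≃L[ℝ] W)).prodCongr
    (((ContinuousLinearEquiv.smulLeft t.2.1 : ℝ ≃L[ℝ] ℝ)).prodCongr
      (ContinuousLinearEquiv.smulLeft t.2.2 : V ≃L[ℝ] V))
  map_one' := by
    apply ContinuousLinearEquiv.ext
    funext p
    change ((1 : ℝˣ) • p.1, (1 : ℝˣ) • p.2.1, (1 : ℂˣ) • p.2.2) = p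
    rw [one_smul, one_smul, one_smul]
  map_mul' s t := by
    apply ContinuousLinearEquiv.ext
    funext p
    change ((s.1 * t.1) • p.1, (s.2.1 * t.2.1) • p.2.1, (s.2.2 * t.2.2) • p.2.2)
      = (s.1 • t.1 • p.1, s.2.1 • t.2.1 • p.2.1, s.2.2 • t.2.2 • p.2.2)
    rw [mul_smul, mul_smul, mul_smul]

/-- The action on the source. -/
def aH : G8 →* (EE ≃L[ℝ] EE) :=
  diagH.comp ((rrH.toHomUnits * eeH.toHomUnits).prod (eeH.toHomUnits.prod zzH.toHomUnits))

/-- The action on the target. -/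
def bH : G8 →* (EE ≃L[ℝ] EE) :=
  diagH.comp (rrH.toHomUnits.prod ((1 : G8 →* ℝˣ).prod ezH.toHomUnits))

lemma aH_apply (g : G8) (p : EE) :
    aH g p = ((rr8 g * ee8 g) • p.1, ee8 g * p.2.1, zz g • p.2.2) := rfl

lemma bH_apply (g : G8) (p : EE) :
    bH g p = (rr8 g • p.1, p.2.1, ((ee8 g : ℂ) * zz g) • p.2.2) := by
  change (rr8 g • p.1, (1 : ℝ) * p.2.1, ((ee8 g : ℂ) * zz g) • p.2.2) = _
  rw [one_mul]

/-- Multiplication by a complex number as a real-linear map. -/
def cmul (ζ : ℂ) : V →L[ℝ] V :=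
  LinearMap.toContinuousLinearMap
    { toFun := fun z => ζ • z
      map_add' := fun x y => smul_add _ x y
      map_smul' := fun r x => (smul_comm r ζ x).symm }

lemma cmul_apply (ζ : ℂ) (z : V) : cmul ζ z = ζ • z := rfl

lemma det_cmul_pos {ζ : ℂ} (h : ζ ≠ 0) : 0 < (cmul ζ).det := by
  obtain ⟨ω, hω⟩ := IsAlgClosed.exists_pow_nat_eq ζ (n := 2) (by norm_num)
  have h1 : cmul ζ = (cmul ω).comp (cmul ω) := by
    ext z : 1
    simp only [ContinuousLinearMap.comp_apply, cmul_apply, smul_smul]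
    rw [← hω, sq]
  have h2 : (cmul ζ).det = (cmul ω).det * (cmul ω).det := by
    rw [h1]
    unfold ContinuousLinearMap.det
    exact LinearMap.det_comp _ _
  have h3 : (cmul ζ).det ≠ 0 := by
    have h4 : (cmul ζ⁻¹).comp (cmul ζ) = ContinuousLinearMap.id ℝ V := by
      ext z : 1
      simp only [ContinuousLinearMap.comp_apply, cmul_apply, smul_smul]
      rw [inv_mul_cancel₀ h, one_smul]; rfl
    have h5 : (cmul ζ⁻¹).det * (cmul ζ).det = 1 := by
      have h6 : ((cmul ζ⁻¹).comp (cmul ζ)).det = (cmul ζ⁻¹).det * (cmul ζ).det := by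
        unfold ContinuousLinearMap.det
        exact LinearMap.det_comp _ _
      rw [← h6, h4]
      unfold ContinuousLinearMap.det
      exact LinearMap.det_id
    intro h0
    rw [h0, mul_zero] at h5
    exact zero_ne_one h5
  rw [h2]
  rcases lt_trichotomy (cmul ω).det 0 with h4 | h4 | h4
  · exact mul_pos_of_neg_of_neg h4 h4
  · exfalso; apply h3; rw [h2, h4, mul_zero]
  · exact mul_pos h4 h4

lemma det_diag (x y : ℝ) (ζ : ℂ) (T : EE →L[ℝ] EE)
    (hT : ∀ p, T p = (x • p.1, y * p.2.1, ζ • p.2.2)) : T.det = x ^ 7 * (y * (cmul ζ).det) := by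
  have h1 : T = (x • ContinuousLinearMap.id ℝ W).prodMap
      ((y • ContinuousLinearMap.id ℝ ℝ).prodMap (cmul ζ)) := by
    apply ContinuousLinearMap.ext
    intro p
    rw [hT]
    rfl
  rw [h1]
  unfold ContinuousLinearMap.det
  have e1 : (((x • ContinuousLinearMap.id ℝ W).prodMap
      ((y • ContinuousLinearMap.id ℝ ℝ).prodMap (cmul ζ)) : EE →L[ℝ] EE) : EE →ₗ[ℝ] EE)
      = (x • (LinearMap.id : W →ₗ[ℝ] W)).prodMap
        ((y • (LinearMap.id : ℝ →ₗ[ℝ] ℝ)).prodMap (cmul ζ : V →ₗ[ℝ] V)) := rfl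
  rw [e1, LinearMap.det_prodMap, LinearMap.det_prodMap, LinearMap.det_smul, LinearMap.det_smul,
    LinearMap.det_id, LinearMap.det_id, finrank_W]
  simp

lemma det_pos8 (g : G8) :
    0 < ((aH g : EE ≃L[ℝ] EE) : EE →L[ℝ] EE).det * ((bH g : EE ≃L[ℝ] EE) : EE →L[ℝ] EE).det := by
  rw [det_diag (rr8 g * ee8 g) (ee8 g) (zz g) _ (fun p => aH_apply g p),
    det_diag (rr8 g) 1 ((ee8 g : ℂ) * zz g) _ (fun p => by
      rw [one_mul]; exact bH_apply g p)]
  have hz : zz g ≠ 0 := by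
    intro h0
    have := zz_pow g
    rw [h0] at this
    norm_num at this
  have he : (ee8 g : ℂ) * zz g ≠ 0 := by
    apply mul_ne_zero _ hz
    rcases ee8_cases g with h | h <;> rw [h] <;> norm_num
  have d1 := det_cmul_pos hz
  have d2 := det_cmul_pos he
  have key : (rr8 g * ee8 g) ^ 7 * (ee8 g * (cmul (zz g)).det) *
      (rr8 g ^ 7 * (1 * (cmul ((ee8 g : ℂ) * zz g)).det))
      = ((rr8 g) ^ 2) ^ 7 * ((ee8 g) ^ 2) ^ 4 * ((cmul (zz g)).det *
        (cmul ((ee8 g : ℂ) * zz g)).det) := by ring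
  rw [key]
  have h1 : rr8 g ^ 2 = 1 := by rcases rr8_cases g with h | h <;> rw [h] <;> norm_num
  have h2 : ee8 g ^ 2 = 1 := by rcases ee8_cases g with h | h <;> rw [h] <;> norm_num
  rw [h1, h2, one_pow, one_pow, one_mul, one_mul]
  exact mul_pos d1 d2

end

end Pool.Agent.Flip
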